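import Mathlib

/-!
Matrices that are a sum of a matrix of small rank and a matrix with few nonzero entries in each row and column.
-/

set_option autoImplicit false

namespace Pool.Agent.V7H10.DR

open Finset Classical

variable {F : Type} [Field F]

/-- all rows and all columns of `S` have at most `s` nonzero entries -/
def Sparse {ι κ : Type} [Fintype ι] [Fintype κ] (S : Matrix ι κ F) (s : ℝ) : Prop :=
  (∀ i, ((univ.filter (fun j => S i j ≠ 0)).card : ℝ) ≤ s) ∧
    (∀ j, ((univ.filter (fun i => S i j ≠ 0)).card : ℝ) ≤ s)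

/-- `X = P Q + S` with inner dimension at most `r` and `S` having at most `s` nonzero entries in each line -/
def Dec {ι κ : Type} [Fintype ι] [Fintype κ] (X : Matrix ι κ F) (r s : ℝ) : Prop :=
  ∃ (τ : Type) (_ : Fintype τ) (P : Matrix ι τ F) (Q : Matrix τ κ F) (S : Matrix ι κ F),
    X = P * Q + S ∧ (Fintype.card τ : ℝ) ≤ r ∧ Sparse S s

section rules

variable {ι κ μ : Type} [Fintype ι] [Fintype κ] [Fintype μ]

lemma Sparse.transpose {S : Matrix ι κ F} {s : ℝ} (h : Sparse S s) : Sparse S.transpose s :=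
  ⟨fun j => h.2 j, fun i => h.1 i⟩

lemma Sparse.mono {S : Matrix ι κ F} {s s' : ℝ} (h : Sparse S s) (hs : s ≤ s') : Sparse S s' :=
  ⟨fun i => (h.1 i).trans hs, fun j => (h.2 j).trans hs⟩

lemma Sparse.zero {s : ℝ} (hs : 0 ≤ s) : Sparse (0 : Matrix ι κ F) s :=
  ⟨fun i => by simpa using hs, fun j => by simpa using hs⟩

lemma Sparse.add {S T : Matrix ι κ F} {s t : ℝ} (h : Sparse S s) (h' : Sparse T t) :
    Sparse (S + T) (s + t) := by
  refine ⟨fun i => ?_, fun j => ?_⟩
  · refine le_trans ?_ (add_le_add (h.1 i) (h'.1 i))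
    rw [← Nat.cast_add, Nat.cast_le]
    refine le_trans (card_le_card ?_) (card_union_le _ _)
    intro j hj
    simp only [mem_filter, mem_univ, true_and, mem_union] at hj ⊢
    by_contra hcon
    push Not at hcon
    apply hj
    rw [Matrix.add_apply, hcon.1, hcon.2, add_zero]
  · refine le_trans ?_ (add_le_add (h.2 j) (h'.2 j))
    rw [← Nat.cast_add, Nat.cast_le]
    refine le_trans (card_le_card ?_) (card_union_le _ _)
    intro i hi
    simp only [mem_filter, mem_univ, true_and, mem_union] at hi ⊢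
    by_contra hcon
    push Not at hcon
    apply hi
    rw [Matrix.add_apply, hcon.1, hcon.2, add_zero]

lemma row_mul {S : Matrix ι κ F} {T : Matrix κ μ F} {s t : ℝ} (ht : 0 ≤ t)
    (h : ∀ i, ((univ.filter (fun j => S i j ≠ 0)).card : ℝ) ≤ s)
    (h' : ∀ i, ((univ.filter (fun j => T i j ≠ 0)).card : ℝ) ≤ t) (i : ι) :
    ((univ.filter (fun j => (S * T) i j ≠ 0)).card : ℝ) ≤ s * t := by
  have h1 : (univ.filter (fun j => (S * T) i j ≠ 0)) ⊆
      (univ.filter (fun k => S i k ≠ 0)).biUnion (fun k => univ.filter (fun j => T k j ≠ 0)) := by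
    intro j hj
    simp only [mem_filter, mem_univ, true_and, mem_biUnion] at hj ⊢
    rw [Matrix.mul_apply] at hj
    obtain ⟨k, _, hk⟩ := Finset.exists_ne_zero_of_sum_ne_zero hj
    exact ⟨k, left_ne_zero_of_mul hk, right_ne_zero_of_mul hk⟩
  have h2 : ((univ.filter (fun j => (S * T) i j ≠ 0)).card : ℝ) ≤
      ∑ k ∈ univ.filter (fun k => S i k ≠ 0), ((univ.filter (fun j => T k j ≠ 0)).card : ℝ) := by
    rw [← Nat.cast_sum, Nat.cast_le]
    exact (card_le_card h1).trans card_biUnion_le
  refine h2.trans ((Finset.sum_le_sum (fun k _ => h' k)).trans ?_)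
  rw [Finset.sum_const, nsmul_eq_mul]
  exact mul_le_mul_of_nonneg_right (h i) ht

lemma Sparse.mul {S : Matrix ι κ F} {T : Matrix κ μ F} {s t : ℝ} (hs : 0 ≤ s) (ht : 0 ≤ t)
    (h : Sparse S s) (h' : Sparse T t) : Sparse (S * T) (s * t) := by
  refine ⟨row_mul ht h.1 h'.1, fun j => ?_⟩
  have := row_mul (S := T.transpose) (T := S.transpose) hs h'.2 h.2 j
  rw [← Matrix.transpose_mul, mul_comm] at this
  exact this

lemma Dec.mono {X : Matrix ι κ F} {r s r' s' : ℝ} (h : Dec X r s) (hr : r ≤ r') (hs : s ≤ s') :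
    Dec X r' s' := by
  obtain ⟨τ, hτ, P, Q, S, h1, h2, h3⟩ := h
  exact ⟨τ, hτ, P, Q, S, h1, h2.trans hr, h3.mono hs⟩

lemma Dec.of_sparse {X : Matrix ι κ F} {s : ℝ} (h : Sparse X s) : Dec X 0 s := by
  refine ⟨Empty, inferInstance, 0, 0, X, by simp, by simp, h⟩

lemma Dec.transpose {X : Matrix ι κ F} {r s : ℝ} (h : Dec X r s) : Dec X.transpose r s := by
  obtain ⟨τ, hτ, P, Q, S, h1, h2, h3⟩ := h
  refine ⟨τ, hτ, Q.transpose, P.transpose, S.transpose, ?_, h2, h3.transpose⟩
  rw [h1, Matrix.transpose_add, Matrix.transpose_mul]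

lemma Dec.add {X Y : Matrix ι κ F} {r s r' s' : ℝ} (h : Dec X r s) (h' : Dec Y r' s') :
    Dec (X + Y) (r + r') (s + s') := by
  obtain ⟨τ, hτ, P, Q, S, h1, h2, h3⟩ := h
  obtain ⟨τ', hτ', P', Q', S', h1', h2', h3'⟩ := h'
  refine ⟨τ ⊕ τ', inferInstance, Matrix.fromCols P P', Matrix.fromRows Q Q', S + S', ?_, ?_, h3.add h3'⟩
  · rw [Matrix.fromCols_mul_fromRows, h1, h1']
    abel
  · rw [Fintype.card_sum]
    push_cast
    linarith

lemma Dec.mul {X : Matrix ι κ F} {Y : Matrix κ μ F} {r s r' s' : ℝ} (h : Dec X r s) (h' : Dec Y r' s')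
    (hs : 0 ≤ s) (hs' : 0 ≤ s') : Dec (X * Y) (r + r') (s * s') := by
  obtain ⟨τ, hτ, P, Q, S, h1, h2, h3⟩ := h
  obtain ⟨τ', hτ', P', Q', S', h1', h2', h3'⟩ := h'
  refine ⟨τ ⊕ τ', inferInstance, Matrix.fromCols P (S * P'), Matrix.fromRows (Q * Y) Q', S * S', ?_, ?_,
    h3.mul hs hs' h3'⟩
  · rw [Matrix.fromCols_mul_fromRows, h1, h1']
    simp only [Matrix.add_mul, Matrix.mul_add, Matrix.mul_assoc]
    abel
  · rw [Fintype.card_sum]
    push_cast
    linarith

lemma Dec.reindex {ι' κ' : Type} [Fintype ι'] [Fintype κ'] {X : Matrix ι κ F} {r s : ℝ} (h : Dec X r s)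
    (e : ι' ≃ ι) (f : κ' ≃ κ) : Dec (X.submatrix e f) r s := by
  obtain ⟨τ, hτ, P, Q, S, h1, h2, h3⟩ := h
  refine ⟨τ, hτ, P.submatrix e id, Q.submatrix id f, S.submatrix e f, ?_, h2, ?_, ?_⟩
  · rw [h1]
    ext i j
    simp [Matrix.mul_apply]
  · intro i
    refine le_trans (le_of_eq ?_) (h3.1 (e i))
    congr 1
    apply card_equiv f
    intro j
    rw [mem_filter, mem_filter]
    simp
  · intro j
    refine le_trans (le_of_eq ?_) (h3.2 (f j))
    congr 1
    apply card_equiv e
    intro i
    rw [mem_filter, mem_filter]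
    simp

/-- tensoring with a dense matrix -/
lemma Dec.kron {ι' : Type} [Fintype ι'] {X : Matrix ι κ F} {r s : ℝ} (h : Dec X r s)
    (C : Matrix ι' ι' F) :
    Dec (Matrix.of (fun (x : ι × ι') (y : κ × ι') => X x.1 y.1 * C x.2 y.2)) (r * Fintype.card ι')
      (s * Fintype.card ι') := by
  obtain ⟨τ, hτ, P, Q, S, h1, h2, h3⟩ := h
  refine ⟨τ × ι', inferInstance, Matrix.of (fun x t => P x.1 t.1 * C x.2 t.2),
    Matrix.of (fun t y => if t.2 = y.2 then Q t.1 y.1 else 0),
    Matrix.of (fun x y => S x.1 y.1 * C x.2 y.2), ?_, ?_, ?_, ?_⟩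
  · ext x y
    rw [h1]
    simp only [Matrix.add_apply, Matrix.mul_apply, Matrix.of_apply, add_mul]
    congr 1
    rw [Fintype.sum_prod_type, Finset.sum_mul]
    apply Finset.sum_congr rfl
    intro t _
    simp only [mul_ite, mul_zero, Finset.sum_ite_eq', Finset.mem_univ, if_true]
    ring
  · rw [Fintype.card_prod]
    push_cast
    exact mul_le_mul_of_nonneg_right h2 (Nat.cast_nonneg _)
  · intro x
    simp only [Matrix.of_apply]
    have h4 : (univ.filter (fun y : κ × ι' => S x.1 y.1 * C x.2 y.2 ≠ 0)) ⊆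
        (univ.filter (fun j => S x.1 j ≠ 0)) ×ˢ univ := by
      intro y hy
      simp only [mem_filter, mem_univ, true_and, mem_product, and_true] at hy ⊢
      exact left_ne_zero_of_mul hy
    have h5 := card_le_card h4
    rw [card_product, card_univ] at h5
    refine le_trans (Nat.cast_le.2 h5) ?_
    push_cast
    exact mul_le_mul_of_nonneg_right (h3.1 x.1) (Nat.cast_nonneg _)
  · intro y
    simp only [Matrix.of_apply]
    have h4 : (univ.filter (fun x : ι × ι' => S x.1 y.1 * C x.2 y.2 ≠ 0)) ⊆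
        (univ.filter (fun i => S i y.1 ≠ 0)) ×ˢ univ := by
      intro x hx
      simp only [mem_filter, mem_univ, true_and, mem_product, and_true] at hx ⊢
      exact left_ne_zero_of_mul hx
    have h5 := card_le_card h4
    rw [card_product, card_univ] at h5
    refine le_trans (Nat.cast_le.2 h5) ?_
    push_cast
    exact mul_le_mul_of_nonneg_right (h3.2 y.1) (Nat.cast_nonneg _)

/-- few bad rows and few bad columns, the rest of the matrix being sparse -/
lemma Dec.of_bad (X : Matrix ι κ F) (B : Finset ι) (C : Finset κ) (s : ℝ) (hs : 0 ≤ s)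
    (h1 : ∀ i, i ∉ B → ∃ T : Finset κ, (T.card : ℝ) ≤ s ∧ ∀ j, j ∉ C → X i j ≠ 0 → j ∈ T)
    (h2 : ∀ j, j ∉ C → ∃ T : Finset ι, (T.card : ℝ) ≤ s ∧ ∀ i, i ∉ B → X i j ≠ 0 → i ∈ T) :
    Dec X ((B.card : ℝ) + C.card) s := by
  refine ⟨B ⊕ C, inferInstance,
    Matrix.of (fun i t => Sum.elim (fun b => if i = b.1 then 1 else 0)
      (fun c => if i ∈ B then 0 else X i c.1) t),
    Matrix.of (fun t j => Sum.elim (fun b => X b.1 j) (fun c => if c.1 = j then 1 else 0) t),
    Matrix.of (fun i j => if i ∈ B ∨ j ∈ C then 0 else X i j), ?_, ?_, ?_, ?_⟩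
  · ext i j
    rw [Matrix.add_apply, Matrix.mul_apply, Fintype.sum_sum_type]
    simp only [Matrix.of_apply, Sum.elim_inl, Sum.elim_inr]
    have e1 : (∑ b : B, (if i = b.1 then (1 : F) else 0) * X b.1 j) = if i ∈ B then X i j else 0 := by
      rw [Finset.sum_coe_sort B (fun b => (if i = b then (1 : F) else 0) * X b j)]
      simp
    have e2 : (∑ c : C, (if i ∈ B then (0 : F) else X i c.1) * (if c.1 = j then 1 else 0)) =
        if j ∈ C then (if i ∈ B then 0 else X i j) else 0 := by
      rw [Finset.sum_coe_sort C (fun c => (if i ∈ B then (0 : F) else X i c) * (if c = j then 1 else 0))]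
      simp
    rw [e1, e2]
    by_cases hi : i ∈ B <;> by_cases hj : j ∈ C <;> simp [hi, hj]
  · rw [Fintype.card_sum]
    simp
  · intro i
    by_cases hi : i ∈ B
    · simpa [hi] using hs
    · obtain ⟨T, hT, hT'⟩ := h1 i hi
      refine le_trans (Nat.cast_le.2 (card_le_card ?_)) hT
      intro j hj
      rw [mem_filter] at hj
      by_cases hjC : j ∈ C
      · simp [hjC] at hj
      · apply hT' j hjC
        simpa [hi, hjC] using hj
  · intro j
    by_cases hj : j ∈ C
    · simpa [hj] using hs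
    · obtain ⟨T, hT, hT'⟩ := h2 j hj
      refine le_trans (Nat.cast_le.2 (card_le_card ?_)) hT
      intro i hi
      rw [mem_filter] at hi
      by_cases hiB : i ∈ B
      · simp [hiB] at hi
      · apply hT' i hiB
        simpa [hiB, hj] using hi

/-- a block of the matrix -/
lemma Dec.of_block {G : Type} [Fintype G] (g : G → ι) (hg : Function.Injective g)
    (X : Matrix ι ι F) (r s : ℝ) (hs : 0 ≤ s) (h : Dec (X.submatrix g g) r s)
    (U : Finset ι) (hmem : ∀ x, x ∉ U → ∃ a, g a = x) :
    Dec X (r + 2 * (U.card : ℝ)) s := by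
  obtain ⟨τ, hτ, P, Q, S, h1, h2, h3⟩ := h
  -- extension of the block by zero
  set P' : Matrix ι τ F := Matrix.of (fun i t => if h : ∃ a, g a = i then P h.choose t else 0) with hP'
  set Q' : Matrix τ ι F := Matrix.of (fun t j => if h : ∃ a, g a = j then Q t h.choose else 0) with hQ'
  set S' : Matrix ι ι F := Matrix.of (fun i j => if h : (∃ a, g a = i) ∧ (∃ a, g a = j) then
    S h.1.choose h.2.choose else 0) with hS'
  have hch : ∀ (a : G) (h : ∃ b, g b = g a), h.choose = a := fun a h => hg h.choose_spec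
  have hPg : ∀ a t, P' (g a) t = P a t := by
    intro a t
    rw [hP']
    simp only [Matrix.of_apply]
    rw [dif_pos ⟨a, rfl⟩, hch]
  have hQg : ∀ t a, Q' t (g a) = Q t a := by
    intro t a
    rw [hQ']
    simp only [Matrix.of_apply]
    rw [dif_pos ⟨a, rfl⟩, hch]
  have hSg : ∀ a b, S' (g a) (g b) = S a b := by
    intro a b
    rw [hS']
    simp only [Matrix.of_apply]
    rw [dif_pos ⟨⟨a, rfl⟩, ⟨b, rfl⟩⟩, hch, hch]
  have hX : ∀ a b, X (g a) (g b) = (P' * Q' + S') (g a) (g b) := by
    intro a b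
    have := congrFun (congrFun h1 a) b
    rw [Matrix.submatrix_apply] at this
    rw [this, Matrix.add_apply, Matrix.add_apply, Matrix.mul_apply, Matrix.mul_apply, hSg]
    congr 1
    apply Finset.sum_congr rfl
    intro t _
    rw [hPg, hQg]
  have hSs : Sparse S' s := by
    constructor
    · intro i
      by_cases hi : ∃ a, g a = i
      · obtain ⟨a, rfl⟩ := hi
        refine le_trans (Nat.cast_le.2 ?_) (h3.1 a)
        rw [← card_image_of_injective _ hg]
        apply card_le_card
        intro j hj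
        simp only [mem_filter, mem_univ, true_and, mem_image] at hj ⊢
        by_cases hj' : ∃ b, g b = j
        · obtain ⟨b, rfl⟩ := hj'
          rw [hSg] at hj
          exact ⟨b, hj, rfl⟩
        · exfalso
          apply hj
          rw [hS']
          simp only [Matrix.of_apply]
          rw [dif_neg (fun h => hj' h.2)]
      · have : univ.filter (fun j => S' i j ≠ 0) = ∅ := by
          ext j
          simp only [mem_filter, mem_univ, true_and, notMem_empty, iff_false, not_not]
          rw [hS']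
          simp only [Matrix.of_apply]
          rw [dif_neg (fun h => hi h.1)]
        rw [this]
        simpa using hs
    · intro j
      by_cases hj : ∃ a, g a = j
      · obtain ⟨b, rfl⟩ := hj
        refine le_trans (Nat.cast_le.2 ?_) (h3.2 b)
        rw [← card_image_of_injective _ hg]
        apply card_le_card
        intro i hi
        simp only [mem_filter, mem_univ, true_and, mem_image] at hi ⊢
        by_cases hi' : ∃ a, g a = i
        · obtain ⟨a, rfl⟩ := hi'
          rw [hSg] at hi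
          exact ⟨a, hi, rfl⟩
        · exfalso
          apply hi
          rw [hS']
          simp only [Matrix.of_apply]
          rw [dif_neg (fun h => hi' h.1)]
      · have : univ.filter (fun i => S' i j ≠ 0) = ∅ := by
          ext i
          simp only [mem_filter, mem_univ, true_and, notMem_empty, iff_false, not_not]
          rw [hS']
          simp only [Matrix.of_apply]
          rw [dif_neg (fun h => hj h.2)]
        rw [this]
        simpa using hs
  have hd1 : Dec (P' * Q' + S') r s := ⟨τ, hτ, P', Q', S', rfl, h2, hSs⟩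
  have hd2 : Dec (X - (P' * Q' + S')) ((U.card : ℝ) + U.card) 0 := by
    apply Dec.of_bad _ U U 0 le_rfl
    · intro i hi
      refine ⟨∅, by simp, fun j hj h0 => ?_⟩
      exfalso
      obtain ⟨a, rfl⟩ := hmem i hi
      obtain ⟨b, rfl⟩ := hmem j hj
      rw [Matrix.sub_apply, hX, sub_self] at h0
      exact h0 rfl
    · intro j hj
      refine ⟨∅, by simp, fun i hi h0 => ?_⟩
      exfalso
      obtain ⟨a, rfl⟩ := hmem i hi
      obtain ⟨b, rfl⟩ := hmem j hj
      rw [Matrix.sub_apply, hX, sub_self] at h0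
      exact h0 rfl
  have := hd1.add hd2
  rw [add_sub_cancel] at this
  refine this.mono ?_ (by simp)
  linarith

/-- the rank and the number of changes -/
lemma Dec.rank_card {X : Matrix ι ι F} {r s : ℝ} (h : Dec X r s) :
    ∃ Y : Matrix ι ι F, (Y.rank : ℝ) ≤ r ∧
      ((univ.filter (fun p : ι × ι => Y p.1 p.2 ≠ X p.1 p.2)).card : ℝ) ≤ Fintype.card ι * s := by
  obtain ⟨τ, hτ, P, Q, S, h1, h2, h3⟩ := h
  refine ⟨P * Q, ?_, ?_⟩
  · refine le_trans ?_ h2
    rw [Nat.cast_le]
    exact (Matrix.rank_mul_le_left _ _).trans (Matrix.rank_le_card_width _)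
  · have h4 : (univ.filter (fun p : ι × ι => (P * Q) p.1 p.2 ≠ X p.1 p.2)).card ≤
        (univ.sigma (fun i : ι => univ.filter (fun j => S i j ≠ 0))).card := by
      apply card_le_card_of_injOn (fun p => ⟨p.1, p.2⟩)
      · intro p hp
        simp only [coe_filter, mem_univ, true_and, Set.mem_ofPred_eq, coe_sigma, Set.mem_sigma_iff] at hp ⊢
        rw [h1, Matrix.add_apply] at hp
        refine ⟨by simp, ?_⟩
        intro h0
        apply hp
        rw [h0, add_zero]
      · rintro ⟨a, b⟩ _ ⟨c, d⟩ _ h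
        simp only [Sigma.mk.injEq, heq_eq_eq] at h
        rw [h.1, h.2]
    refine (Nat.cast_le.2 h4).trans ?_
    rw [card_sigma]
    push_cast
    refine (Finset.sum_le_sum (fun i _ => h3.1 i)).trans ?_
    rw [Finset.sum_const, nsmul_eq_mul, card_univ]

end rules

end Pool.Agent.V7H10.DR
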