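import Pool.Agent.V7H10.DR.Grp

/-!
The discrete Fourier transform of order `N = (∏ p) M`, where `p - 1 ∣ M` for all the primes `p`.
-/

set_option autoImplicit false

namespace Pool.Agent.V7H10.DR

open Finset Classical

/-- prime powers dividing a least common multiple -/
lemma pp_lcm (P : Finset ℕ) (Z : ℕ) (hZ : 1 ≤ Z)
    (hP : ∀ p ∈ P, p.Prime ∧ ∀ q e : ℕ, q.Prime → q ^ e ∣ p - 1 → q ^ e ≤ Z) :
    P.lcm (fun p => p - 1) ≠ 0 ∧ ∀ q e : ℕ, q.Prime → q ^ e ∣ P.lcm (fun p => p - 1) → q ^ e ≤ Z := by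
  induction P using Finset.induction_on with
  | empty =>
    rw [Finset.lcm_empty]
    refine ⟨one_ne_zero, fun q e _ h => ?_⟩
    have := Nat.le_of_dvd one_pos h
    omega
  | insert p P hp ih =>
    obtain ⟨h1, h2⟩ := ih (fun r hr => hP r (mem_insert_of_mem hr))
    obtain ⟨h3, h4⟩ := hP p (mem_insert_self p P)
    have h5 : p - 1 ≠ 0 := by
      have := h3.two_le
      omega
    rw [Finset.lcm_insert]
    change Nat.lcm (p - 1) (P.lcm (fun p => p - 1)) ≠ 0 ∧ ∀ q e : ℕ, q.Prime →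
      q ^ e ∣ Nat.lcm (p - 1) (P.lcm (fun p => p - 1)) → q ^ e ≤ Z
    refine ⟨Nat.lcm_ne_zero h5 h1, fun q e hq h => ?_⟩
    rw [hq.pow_dvd_iff_le_factorization (Nat.lcm_ne_zero h5 h1), Nat.factorization_lcm h5 h1,
      Finsupp.sup_apply, le_sup_iff] at h
    rcases h with h | h
    · exact h4 q e hq ((hq.pow_dvd_iff_le_factorization h5).2 h)
    · exact h2 q e hq ((hq.pow_dvd_iff_le_factorization h1).2 h)

/-- a number all of whose prime power divisors are at most `Z` is at most `Z ^ Z` -/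
lemma pp_le (M Z : ℕ) (hM : M ≠ 0) (hZ : 1 ≤ Z) (h : ∀ q e : ℕ, q.Prime → q ^ e ∣ M → q ^ e ≤ Z) :
    M ≤ Z ^ Z := by
  have h1 : M = ∏ q ∈ M.primeFactors, q ^ (M.factorization q) := by
    conv_lhs => rw [← Nat.prod_factorization_pow_eq_self hM]
    rfl
  have h2 : ∏ q ∈ M.primeFactors, q ^ (M.factorization q) ≤ ∏ q ∈ M.primeFactors, Z := by
    apply Finset.prod_le_prod'
    intro q hq
    exact h q _ (Nat.prime_of_mem_primeFactors hq) (Nat.ordProj_dvd M q)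
  rw [Finset.prod_const] at h2
  have h3 : M.primeFactors.card ≤ Z := by
    have h4 : M.primeFactors ⊆ Icc 1 Z := by
      intro q hq
      rw [mem_Icc]
      have hqp := Nat.prime_of_mem_primeFactors hq
      refine ⟨hqp.one_lt.le, ?_⟩
      have := h q 1 hqp (by rw [pow_one]; exact Nat.dvd_of_mem_primeFactors hq)
      rwa [pow_one] at this
    have := card_le_card h4
    rwa [Nat.card_Icc, Nat.add_sub_cancel] at this
  calc M = _ := h1
    _ ≤ Z ^ M.primeFactors.card := h2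
    _ ≤ Z ^ Z := Nat.pow_le_pow_right hZ h3

/-- the exponent of the unit group -/
lemma unit_pow (P : Finset ℕ) (hP : ∀ p ∈ P, p.Prime) (M : ℕ) (hM : ∀ p ∈ P, p - 1 ∣ M)
    (g : (ZMod (∏ p ∈ P, p))ˣ) : g ^ M = 1 := by
  have hN : (∏ p ∈ P, p) ≠ 0 := Finset.prod_ne_zero_iff.2 (fun p hp => (hP p hp).ne_zero)
  have : NeZero (∏ p ∈ P, p) := ⟨hN⟩
  obtain ⟨a, ha⟩ : ∃ a : ℕ, a = (g : ZMod (∏ p ∈ P, p)).val := ⟨_, rfl⟩
  have hga : ((a : ℕ) : ZMod (∏ p ∈ P, p)) = g := by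
    rw [ha, ZMod.natCast_zmod_val]
  have hco : Nat.Coprime a (∏ p ∈ P, p) := by
    rw [ha]
    exact ZMod.val_coe_unit_coprime g
  have h1 : ∀ p ∈ P, a ^ M ≡ 1 [MOD p] := by
    intro p hp
    have hpc : Nat.Coprime a p := Nat.Coprime.coprime_dvd_right (Finset.dvd_prod_of_mem _ hp) hco
    obtain ⟨k, hk⟩ := hM p hp
    have h2 := Nat.ModEq.pow_totient hpc
    rw [Nat.totient_prime (hP p hp)] at h2
    rw [hk, pow_mul]
    simpa using h2.pow k
  have h2 : a ^ M ≡ 1 [MOD ∏ p ∈ P, p] := by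
    rcases Nat.eq_zero_or_pos a with h0 | h0
    · rw [h0] at hco
      have h3 : (∏ p ∈ P, p) = 1 := by simpa using hco
      rw [h3]
      exact Nat.modEq_one
    · have h3 : 1 ≤ a ^ M := Nat.one_le_pow _ _ h0
      have h4 : (∏ p ∈ P, p) ∣ a ^ M - 1 := by
        apply Finset.prod_primes_dvd
        · intro p hp
          exact (hP p hp).prime
        · intro p hp
          exact (Nat.modEq_iff_dvd' h3).1 (h1 p hp).symm
      exact ((Nat.modEq_iff_dvd' h3).2 h4).symm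
  ext
  rw [Units.val_pow_eq_pow_val, Units.val_one, ← hga]
  have h3 := (ZMod.natCast_eq_natCast_iff _ _ _).2 h2
  push_cast at h3
  exact h3

/-- the number of non-units -/
lemma card_nonunit (P : Finset ℕ) (hP : ∀ p ∈ P, p.Prime) [NeZero (∏ p ∈ P, p)] :
    ∃ U : Finset (ZMod (∏ p ∈ P, p)), (∀ x, x ∉ U → ∃ u : (ZMod (∏ p ∈ P, p))ˣ,
      (u : ZMod (∏ p ∈ P, p)) = x) ∧
      (U.card : ℝ) ≤ (∏ p ∈ P, p : ℕ) * ∑ p ∈ P, 1 / (p : ℝ) := by
  set N := ∏ p ∈ P, p with hN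
  refine ⟨P.biUnion (fun p => univ.filter (fun x : ZMod N => p ∣ x.val)), ?_, ?_⟩
  · intro x hx
    rw [mem_biUnion] at hx
    push Not at hx
    have hcon := hx
    have hco : Nat.Coprime x.val N := by
      apply Nat.Coprime.prod_right
      intro p hp
      rw [Nat.coprime_comm, (hP p hp).coprime_iff_not_dvd]
      intro hd
      exact hcon p hp (by rw [mem_filter]; exact ⟨mem_univ _, hd⟩)
    refine ⟨ZMod.unitOfCoprime x.val hco, ?_⟩
    simp only [ZMod.coe_unitOfCoprime, ZMod.natCast_zmod_val]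
  have h2 : ∀ p ∈ P, ((univ.filter (fun x : ZMod N => p ∣ x.val)).card : ℝ) ≤ N * (1 / (p : ℝ)) := by
    intro p hp
    have hpp := hP p hp
    obtain ⟨k, hk⟩ : p ∣ N := by rw [hN]; exact Finset.dvd_prod_of_mem _ hp
    have h3 : (univ.filter (fun x : ZMod N => p ∣ x.val)).card ≤ (range k).card := by
      apply card_le_card_of_injOn (fun x => x.val / p)
      · intro x hx
        rw [coe_filter, Set.mem_ofPred_eq] at hx
        rw [coe_range, Set.mem_Iio]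
        rw [Nat.div_lt_iff_lt_mul hpp.pos, mul_comm, ← hk]
        exact ZMod.val_lt x
      · intro x hx y hy hxy
        rw [coe_filter, Set.mem_ofPred_eq] at hx hy
        apply ZMod.val_injective N
        simp only at hxy
        rw [← Nat.div_mul_cancel hx.2, ← Nat.div_mul_cancel hy.2, hxy]
    rw [card_range] at h3
    have hp0 : (0 : ℝ) < p := by exact_mod_cast hpp.pos
    have h4 : (N : ℝ) * (1 / p) = k := by
      rw [hk]
      push_cast
      field_simp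
    rw [h4]
    exact_mod_cast h3
  rw [Finset.mul_sum]
  refine le_trans ?_ (Finset.sum_le_sum h2)
  rw [← Nat.cast_sum, Nat.cast_le]
  exact card_biUnion_le

/-- the Fourier matrix with entries `ω ^ (i j)` -/
def DFT {F : Type} [Field F] (N : ℕ) (ω : F) : Matrix (Fin N) (Fin N) F :=
  Matrix.of fun i j => ω ^ ((i : ℕ) * (j : ℕ))

/-- **decomposition of the Fourier matrix** -/
theorem dft_dec (η : ℝ) (hη : 0 < η) : ∃ θ : ℝ, 0 < θ ∧ ∀ (F : Type) [Field F]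
    (P : Finset ℕ) (Z : ℕ) (_ : 1 ≤ Z)
    (_ : ∀ p ∈ P, p.Prime ∧ ∀ q e : ℕ, q.Prime → q ^ e ∣ p - 1 → q ^ e ≤ Z) (_ : ∀ p ∈ P, Z < p)
    (N : ℕ) (_ : N = (∏ p ∈ P, p) * P.lcm (fun p => p - 1)) (ω : F) (_ : IsPrimitiveRoot ω N)
    (H : ℝ) (_ : 0 ≤ H),
    Dec (DFT N ω) (N * (4 * Z ^ 2 * Real.exp (-(θ ^ 2 * H / (4 * Z))) + 2 * ∑ p ∈ P, 1 / (p : ℝ)))
      (Real.exp (2 * (η * Real.log N + Z * (H * Real.log Z))) * (Z : ℝ) ^ Z) := by
  obtain ⟨θ, hθ, hgrp⟩ := group_dec η hη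
  refine ⟨θ, hθ, ?_⟩
  intro F _ P Z hZ hP hPZ N hN ω hω H hH
  set N1 := ∏ p ∈ P, p with hN1
  set M := P.lcm (fun p => p - 1) with hM
  have hPp : ∀ p ∈ P, p.Prime := fun p hp => (hP p hp).1
  obtain ⟨hM0, hMpp⟩ := pp_lcm P Z hZ hP
  rw [← hM] at hM0 hMpp
  have hN10 : N1 ≠ 0 := Finset.prod_ne_zero_iff.2 (fun p hp => (hPp p hp).ne_zero)
  have hN0 : N ≠ 0 := by rw [hN]; exact mul_ne_zero hN10 hM0
  have i1 : NeZero N1 := ⟨hN10⟩
  have i2 : NeZero M := ⟨hM0⟩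
  have i3 : NeZero N := ⟨hN0⟩
  have i4 : NeZero (N1 * M) := ⟨mul_ne_zero hN10 hM0⟩
  have hMZ : M ≤ Z ^ Z := pp_le M Z hM0 hZ hMpp
  have hco : Nat.Coprime N1 M := by
    rw [hN1]
    apply Nat.Coprime.prod_left
    intro p hp
    rw [(hPp p hp).coprime_iff_not_dvd]
    intro hd
    have h1 := hMpp p 1 (hPp p hp) (by rwa [pow_one])
    rw [pow_one] at h1
    have h2 := hPZ p hp
    omega
  -- the unit group of `ℤ/N1`
  have hωM : IsPrimitiveRoot (ω ^ N1) M := hω.pow (Nat.pos_of_ne_zero hN0) hN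
  have hunit : ∀ g : (ZMod N1)ˣ, g ^ M = 1 := unit_pow P hPp M (fun p hp => Finset.dvd_lcm hp)
  subst hN
  have hω1 : ω ^ (N1 * M) = 1 := hω.pow_eq_one
  set ψ : AddChar (ZMod (N1 * M)) F := AddChar.zmodChar (N1 * M) hω1 with hψ
  set φ : ZMod (N1 * M) ≃+* ZMod N1 × ZMod M := ZMod.chineseRemainder hco with hφ
  -- the two characters
  have hsplit : ∀ z : ZMod N1 × ZMod M, ψ (φ.symm z) = ψ (φ.symm (z.1, 0)) * ψ (φ.symm (0, z.2)) := by
    intro z
    rw [← AddChar.map_add_eq_mul, ← map_add]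
    congr 2
    ext <;> simp
  set B : Matrix (ZMod N1) (ZMod N1) F := Matrix.of (fun x y => ψ (φ.symm (x * y, 0))) with hB
  have hMF : (M : F) ≠ 0 := (hωM.neZero').ne
  have hg := hgrp F (ZMod N1)ˣ M Z hMF hunit hZ hMpp (ω ^ N1) hωM H hH
    (fun u => ψ (φ.symm ((u : ZMod N1), 0)))
  have hBg : B.submatrix (fun u : (ZMod N1)ˣ => (u : ZMod N1)) (fun u : (ZMod N1)ˣ => (u : ZMod N1)) =
      Matrix.of (fun x y : (ZMod N1)ˣ => (fun u : (ZMod N1)ˣ => ψ (φ.symm ((u : ZMod N1), 0))) (x * y)) := by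
    ext x y
    rw [Matrix.submatrix_apply, hB, Matrix.of_apply, Matrix.of_apply]
    simp only [Units.val_mul]
  rw [← hBg] at hg
  obtain ⟨U, hU, hcn⟩ := card_nonunit P hPp
  have hB1 := Dec.of_block (fun u : (ZMod N1)ˣ => (u : ZMod N1)) Units.val_injective B _ _
    (Real.exp_pos _).le hg U hU
  have hcu : (Fintype.card (ZMod N1)ˣ : ℝ) ≤ N1 := by
    have : Fintype.card (ZMod N1)ˣ ≤ Fintype.card (ZMod N1) :=
      Fintype.card_le_of_injective _ Units.val_injective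
    rw [ZMod.card] at this
    exact_mod_cast this
  have hcu0 : (0 : ℝ) < Fintype.card (ZMod N1)ˣ := by exact_mod_cast Fintype.card_pos
  have hcn' : (U.card : ℝ) ≤ (N1 : ℝ) * ∑ p ∈ P, 1 / (p : ℝ) := hcn
  have hM1 : (1 : ℝ) ≤ M := by exact_mod_cast Nat.one_le_iff_ne_zero.2 hM0
  have hN11 : (1 : ℝ) ≤ N1 := by exact_mod_cast Nat.one_le_iff_ne_zero.2 hN10
  have hK := hB1.kron (Matrix.of (fun (x y : ZMod M) => ψ (φ.symm (0, x * y))))
  -- back to `Fin N`
  obtain ⟨e, he⟩ : ∃ e : Fin (N1 * M) ≃ ZMod (N1 * M), ∀ i, (e i).val = (i : ℕ) :=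
    ⟨⟨fun i => ((i : ℕ) : ZMod (N1 * M)), fun x => ⟨x.val, ZMod.val_lt x⟩,
      fun i => Fin.ext (ZMod.val_cast_of_lt i.isLt), fun x => ZMod.natCast_zmod_val x⟩,
      fun i => ZMod.val_cast_of_lt i.isLt⟩
  have hR := hK.reindex (e.trans φ.toEquiv) (e.trans φ.toEquiv)
  have hfin : (Matrix.of (fun (x y : ZMod N1 × ZMod M) => B x.1 y.1 *
      (Matrix.of (fun (x y : ZMod M) => ψ (φ.symm (0, x * y)))) x.2 y.2)).submatrix
      (e.trans φ.toEquiv) (e.trans φ.toEquiv) = DFT (N1 * M) ω := by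
    ext i j
    rw [Matrix.submatrix_apply, Matrix.of_apply, hB, Matrix.of_apply, Matrix.of_apply]
    have h1 := hsplit ((φ (e i)) * (φ (e j)))
    rw [Prod.fst_mul, Prod.snd_mul] at h1
    change ψ (φ.symm ((φ (e i)).1 * (φ (e j)).1, 0)) * ψ (φ.symm (0, (φ (e i)).2 * (φ (e j)).2)) = _
    rw [← h1, ← map_mul, RingEquiv.symm_apply_apply, hψ, AddChar.zmodChar_apply, ZMod.val_mul,
      ← pow_eq_pow_mod _ hω1, he, he]
    rfl
  rw [hfin] at hR
  refine hR.mono ?_ ?_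
  · rw [ZMod.card]
    have h1 : 4 * (Z : ℝ) ^ 2 * Real.exp (-(θ ^ 2 * H / (4 * Z))) * Fintype.card (ZMod N1)ˣ ≤
        4 * (Z : ℝ) ^ 2 * Real.exp (-(θ ^ 2 * H / (4 * Z))) * N1 :=
      mul_le_mul_of_nonneg_left hcu (by positivity)
    calc _ ≤ (4 * (Z : ℝ) ^ 2 * Real.exp (-(θ ^ 2 * H / (4 * Z))) * N1 +
          2 * (N1 * ∑ p ∈ P, 1 / (p : ℝ))) * M := by
          apply mul_le_mul_of_nonneg_right _ (by linarith)
          linarith
      _ = _ := by
          push_cast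
          ring
  · rw [ZMod.card]
    apply mul_le_mul _ (by exact_mod_cast hMZ) (by linarith) (Real.exp_pos _).le
    apply Real.exp_le_exp.2
    have h1 : Real.log (Fintype.card (ZMod N1)ˣ) ≤ Real.log ((N1 * M : ℕ) : ℝ) := by
      apply Real.log_le_log hcu0
      refine hcu.trans ?_
      push_cast
      nlinarith
    have h2 := mul_le_mul_of_nonneg_left h1 hη.le
    linarith

end Pool.Agent.V7H10.DR
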