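import Pool.Agent.V7H10.DR.NT3
import Pool.Agent.V7H10.DR.Dft

/-!
The discrete Fourier transform is not rigid over the cyclotomic field, for infinitely many orders.
-/

set_option autoImplicit false

namespace Pool.Agent.V7H10.DR

open Finset Filter Topology Pool.Agent.TH76.LehP

lemma ev_small (c κ : ℝ) (hc : 0 < c) (hκ : 0 < κ) :
    ∀ᶠ t : ℕ in atTop, 4 * (t : ℝ) ^ 2 * Real.exp (-(c * (t : ℝ) ^ κ)) ≤ 1 := by
  have h1 := tendsto_rpow_mul_exp_neg_mul_atTop_nhds_zero (2 / κ) c hc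
  have h2 : Tendsto (fun t : ℕ => (t : ℝ) ^ κ) atTop atTop :=
    (tendsto_rpow_atTop hκ).comp tendsto_natCast_atTop_atTop
  have h3 := (h1.comp h2).eventually (gt_mem_nhds (by norm_num : (0 : ℝ) < 1 / 4))
  filter_upwards [h3] with t ht
  have h4 : ((t : ℝ) ^ κ) ^ (2 / κ) = (t : ℝ) ^ 2 := by
    rw [← Real.rpow_mul (Nat.cast_nonneg t), mul_div_cancel₀ _ hκ.ne']
    exact_mod_cast Real.rpow_natCast (t : ℝ) 2
  simp only [Function.comp_apply] at ht
  rw [h4, neg_mul] at ht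
  linarith

theorem main_general : ∃ c : ℝ, 0 < c ∧ ∀ δ : ℝ, 0 < δ → ∀ N₀ : ℕ,
    ∃ N : ℕ, N₀ ≤ N ∧ 3 ≤ N ∧ ∀ (F : Type) [Field F] (ω : F), IsPrimitiveRoot ω N →
      ∃ r s : ℝ, Dec (DFT N ω) r s ∧ r ≤ N / Real.log N ^ c ∧ N * s < (N : ℝ) ^ (1 + δ) := by
  obtain ⟨κ, hκ, hκ32, T, hsets⟩ := prime_sets
  refine ⟨κ / 8, by positivity, fun δ hδ N₀ => ?_⟩
  obtain ⟨θ, hθ, hdec⟩ := dft_dec (δ / 8) (by positivity)
  have hev : ∀ᶠ t : ℕ in atTop, T ≤ t ∧ 256 ≤ t ∧ (N₀ : ℝ) + 3 ≤ (t : ℝ) ^ (1 - κ / 2) ∧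
      4 * (t : ℝ) ^ 2 * Real.exp (-(θ ^ 2 / 4 * (t : ℝ) ^ (κ / 2))) ≤ 1 ∧
      5 ≤ (t : ℝ) ^ (κ / 8) ∧ Real.log t ^ 2 ≤ (t : ℝ) ^ (κ / 2) ∧ 9 / δ ≤ Real.log t ∧
      3 ≤ Real.log t := by
    filter_upwards [eventually_ge_atTop T, eventually_ge_atTop 256,
      ev_rpow ((N₀ : ℝ) + 3) (1 - κ / 2) (by linarith),
      ev_small (θ ^ 2 / 4) (κ / 2) (by positivity) (by linarith),
      ev_rpow 5 (κ / 8) (by linarith), ev_logpow 2 (κ / 2) (by linarith), ev_log (9 / δ), ev_log 3]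
      with t h1 h2 h3 h4 h5 h6 h7 h8
    exact ⟨h1, h2, h3, h4, h5, h6, h7, h8⟩
  obtain ⟨t, ht⟩ := hev.exists
  obtain ⟨ht0, ht2, hN0, hsm, h8ε, hll', h9δ, hL3⟩ := ht
  have ht' : (256 : ℝ) ≤ t := by exact_mod_cast ht2
  have htp : (0 : ℝ) < t := by linarith
  have ht1' : (1 : ℝ) ≤ t := by linarith
  have hll : Real.log t ^ 2 ≤ (t : ℝ) ^ κ :=
    hll'.trans (Real.rpow_le_rpow_of_exponent_le ht1' (by linarith))
  obtain ⟨P, hP1, hP2, hP3, hP4⟩ := hsets t ht0
  set Z : ℕ := ⌊(t : ℝ) ^ (1 / 2 - κ)⌋₊ with hZ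
  have hZ1 : 1 ≤ Z := by
    apply Nat.le_floor
    simpa using Real.one_le_rpow ht1' (by linarith : 0 ≤ 1 / 2 - κ)
  have hZ1' : (1 : ℝ) ≤ Z := by exact_mod_cast hZ1
  have hZle : (Z : ℝ) ≤ (t : ℝ) ^ (1 / 2 - κ) := Nat.floor_le (by positivity)
  have hZt : (Z : ℝ) ≤ t := by
    refine hZle.trans ?_
    calc (t : ℝ) ^ (1 / 2 - κ) ≤ (t : ℝ) ^ (1 : ℝ) :=
          Real.rpow_le_rpow_of_exponent_le ht1' (by linarith)
      _ = t := Real.rpow_one _
  have hPZ : ∀ p ∈ P, Z < p := by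
    intro p hp
    have h1 := (hP2 p hp).1
    have h2 : (t : ℝ) ^ (1 / 2 - κ) ≤ (t : ℝ) ^ (1 - κ / 4) :=
      Real.rpow_le_rpow_of_exponent_le ht1' (by linarith)
    exact_mod_cast lt_of_le_of_lt (hZle.trans h2) h1
  set N : ℕ := (∏ p ∈ P, p) * P.lcm (fun p => p - 1) with hN
  have hM0 := (pp_lcm P Z hZ1 hP1).1
  have hprod : 2 ^ P.card ≤ ∏ p ∈ P, p := by
    rw [← Finset.prod_const]
    exact Finset.prod_le_prod' (fun p hp => (hP1 p hp).1.two_le)
  have hN2 : 2 ^ P.card ≤ N := by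
    refine hprod.trans ?_
    exact Nat.le_mul_of_pos_right _ (Nat.pos_of_ne_zero hM0)
  have hN1 : 1 ≤ N := le_trans (Nat.one_le_pow _ _ (by norm_num)) hN2
  have hN1' : (1 : ℝ) ≤ N := by exact_mod_cast hN1
  have hNN0 : N₀ + 3 ≤ N := by
    have h1 : P.card < 2 ^ P.card := Nat.lt_two_pow_self
    have h2 : (N₀ : ℝ) + 3 ≤ P.card := hN0.trans hP3
    have h3 : N₀ + 3 ≤ P.card := by exact_mod_cast h2
    omega
  have hlNt : Real.log N ≤ t := by
    have h1 : Real.log N ≤ P.card * Real.log t + Z * Real.log Z := by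
      have h2 : (N : ℝ) ≤ (t : ℝ) ^ P.card * (Z : ℝ) ^ Z := by
        have h3 : ∏ p ∈ P, p ≤ t ^ P.card := by
          rw [← Finset.prod_const]
          exact Finset.prod_le_prod' (fun p hp => (hP2 p hp).2)
        have h4 := pp_le _ Z hM0 hZ1 (pp_lcm P Z hZ1 hP1).2
        have h5 : N ≤ t ^ P.card * Z ^ Z := Nat.mul_le_mul h3 h4
        exact_mod_cast h5
      have h6 := Real.log_le_log (by linarith) h2
      rw [Real.log_mul (by positivity) (by positivity), Real.log_pow, Real.log_pow] at h6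
      exact h6
    have hlZ : Real.log Z ≤ Real.log t := Real.log_le_log (by linarith) hZt
    have hlZ0 : 0 ≤ Real.log Z := Real.log_nonneg hZ1'
    have hL0 : 0 < Real.log t := by linarith
    have h2 : (Z : ℝ) ≤ (t : ℝ) ^ (1 - κ / 2) :=
      hZle.trans (Real.rpow_le_rpow_of_exponent_le ht1' (by linarith))
    have h3 : 3 * ((t : ℝ) ^ (1 - κ / 2) * Real.log t) ≤ t := by
      have h4 : (t : ℝ) = (t : ℝ) ^ (1 - κ / 2) * (t : ℝ) ^ (κ / 2) := by
        rw [← Real.rpow_add htp]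
        norm_num
      have h5 : 3 * Real.log t ≤ (t : ℝ) ^ (κ / 2) := by
        refine le_trans ?_ hll'
        nlinarith
      calc 3 * ((t : ℝ) ^ (1 - κ / 2) * Real.log t) = (t : ℝ) ^ (1 - κ / 2) * (3 * Real.log t) := by ring
        _ ≤ (t : ℝ) ^ (1 - κ / 2) * (t : ℝ) ^ (κ / 2) := mul_le_mul_of_nonneg_left h5 (by positivity)
        _ = t := h4.symm
    have h4 : (P.card : ℝ) * Real.log t ≤ 2 * (t : ℝ) ^ (1 - κ / 2) * Real.log t :=
      mul_le_mul_of_nonneg_right hP4 hL0.le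
    have h5 : (Z : ℝ) * Real.log Z ≤ (t : ℝ) ^ (1 - κ / 2) * Real.log t :=
      mul_le_mul h2 hlZ hlZ0 (by positivity)
    linarith
  refine ⟨N, by omega, by omega, fun F _ ω hω => ?_⟩
  set H : ℝ := (t : ℝ) ^ (1 / 2 - κ / 2) with hH
  have hH1 : 1 ≤ H := Real.one_le_rpow ht1' (by linarith)
  refine ⟨_, _, hdec F P Z hZ1 hP1 hPZ N rfl ω hω H (by linarith), ?_, ?_⟩
  · -- the rank
    have hN3 : (3 : ℝ) ≤ N := by exact_mod_cast (by omega : 3 ≤ N)
    have hlN1 : 0 < Real.log N := Real.log_pos (by linarith)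
    have hlNp : 0 < Real.log N ^ (κ / 8) := by positivity
    have hgoal : 4 * (Z : ℝ) ^ 2 * Real.exp (-(θ ^ 2 * H / (4 * Z))) + 2 * ∑ p ∈ P, 1 / (p : ℝ) ≤
        1 / Real.log N ^ (κ / 8) := by
      have h0 : 1 / (t : ℝ) ^ (κ / 8) ≤ 1 / Real.log N ^ (κ / 8) := by
        apply one_div_le_one_div_of_le hlNp
        exact Real.rpow_le_rpow hlN1.le hlNt (by positivity)
      refine le_trans ?_ h0
      have hq : 5 * (1 / (t : ℝ) ^ (κ / 4)) ≤ 1 / (t : ℝ) ^ (κ / 8) := by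
        rw [mul_one_div, div_le_div_iff₀ (by positivity) (by positivity), one_mul]
        have h1 : (t : ℝ) ^ (κ / 4) = (t : ℝ) ^ (κ / 8) * (t : ℝ) ^ (κ / 8) := by
          rw [← Real.rpow_add htp]
          congr 1
          ring
        rw [h1]
        exact mul_le_mul_of_nonneg_right h8ε (by positivity)
      refine le_trans ?_ hq
      have h1 : 4 * (Z : ℝ) ^ 2 * Real.exp (-(θ ^ 2 * H / (4 * Z))) ≤ 1 / (t : ℝ) ^ (κ / 4) := by
        have h1a : 4 * (Z : ℝ) ^ 2 * Real.exp (-(θ ^ 2 * H / (4 * Z))) ≤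
            4 * (t : ℝ) * Real.exp (-(θ ^ 2 / 4 * (t : ℝ) ^ (κ / 2))) := by
          apply mul_le_mul _ _ (Real.exp_pos _).le (by positivity)
          · have h2 : (Z : ℝ) ^ 2 ≤ t := by
              calc (Z : ℝ) ^ 2 ≤ ((t : ℝ) ^ (1 / 2 - κ)) ^ 2 := pow_le_pow_left₀ (by positivity) hZle 2
                _ = (t : ℝ) ^ (1 - 2 * κ) := by
                    rw [← Real.rpow_natCast, ← Real.rpow_mul htp.le]
                    congr 1
                    push_cast
                    ring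
                _ ≤ (t : ℝ) ^ (1 : ℝ) := Real.rpow_le_rpow_of_exponent_le ht1' (by linarith)
                _ = t := Real.rpow_one _
            linarith
          · apply Real.exp_le_exp.2
            rw [neg_le_neg_iff, le_div_iff₀ (by positivity)]
            have h2 : (t : ℝ) ^ (κ / 2) * Z ≤ H := by
              calc (t : ℝ) ^ (κ / 2) * Z ≤ (t : ℝ) ^ (κ / 2) * (t : ℝ) ^ (1 / 2 - κ) :=
                    mul_le_mul_of_nonneg_left hZle (by positivity)
                _ = H := by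
                    rw [← Real.rpow_add htp, hH]
                    congr 1
                    ring
            have h3 := mul_le_mul_of_nonneg_left h2 (by positivity : 0 ≤ θ ^ 2)
            calc θ ^ 2 / 4 * (t : ℝ) ^ (κ / 2) * (4 * Z) = θ ^ 2 * ((t : ℝ) ^ (κ / 2) * Z) := by ring
              _ ≤ _ := h3
        refine h1a.trans ?_
        rw [le_div_iff₀ (by positivity)]
        have h4 : (t : ℝ) ^ (κ / 4) ≤ t := by
          calc (t : ℝ) ^ (κ / 4) ≤ (t : ℝ) ^ (1 : ℝ) :=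
                Real.rpow_le_rpow_of_exponent_le ht1' (by linarith)
            _ = t := Real.rpow_one _
        calc 4 * (t : ℝ) * Real.exp (-(θ ^ 2 / 4 * (t : ℝ) ^ (κ / 2))) * (t : ℝ) ^ (κ / 4)
            ≤ 4 * (t : ℝ) * Real.exp (-(θ ^ 2 / 4 * (t : ℝ) ^ (κ / 2))) * t :=
              mul_le_mul_of_nonneg_left h4 (by positivity)
          _ = 4 * (t : ℝ) ^ 2 * Real.exp (-(θ ^ 2 / 4 * (t : ℝ) ^ (κ / 2))) := by ring
          _ ≤ 1 := hsm
      have h2 : ∑ p ∈ P, 1 / (p : ℝ) ≤ 2 * (1 / (t : ℝ) ^ (κ / 4)) := by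
        have h3 : ∀ p ∈ P, 1 / (p : ℝ) ≤ 1 / (t : ℝ) ^ (1 - κ / 4) := by
          intro p hp
          exact one_div_le_one_div_of_le (by positivity) (hP2 p hp).1.le
        refine (Finset.sum_le_sum h3).trans ?_
        rw [Finset.sum_const, nsmul_eq_mul, mul_one_div, mul_one_div, div_le_div_iff₀ (by positivity)
          (by positivity)]
        have h4 : (t : ℝ) ^ (1 - κ / 4) = (t : ℝ) ^ (1 - κ / 2) * (t : ℝ) ^ (κ / 4) := by
          rw [← Real.rpow_add htp]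
          congr 1
          ring
        rw [h4]
        calc (P.card : ℝ) * (t : ℝ) ^ (κ / 4) ≤ 2 * (t : ℝ) ^ (1 - κ / 2) * (t : ℝ) ^ (κ / 4) :=
              mul_le_mul_of_nonneg_right hP4 (by positivity)
          _ = _ := by ring
      linarith
    calc _ ≤ (N : ℝ) * (1 / Real.log N ^ (κ / 8)) := mul_le_mul_of_nonneg_left hgoal (by linarith)
      _ = _ := by rw [mul_one_div]
  · -- the number of changes
    have hZpos : (0 : ℝ) < Z := by linarith
    have hlZ0 : 0 ≤ Real.log Z := Real.log_nonneg hZ1'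
    have hlZ : Real.log Z ≤ Real.log t := Real.log_le_log hZpos hZt
    set L := Real.log t with hL
    have hLpos : 0 < L := by
      have : 0 < 9 / δ := by positivity
      linarith
    have hZZ : (Z : ℝ) ^ Z = Real.exp (Z * Real.log Z) := by
      rw [Real.exp_nat_mul, Real.exp_log hZpos]
    have hNexp : (N : ℝ) = Real.exp (Real.log N) := (Real.exp_log (by linarith)).symm
    have hpow : (N : ℝ) ^ (1 + δ) = Real.exp (Real.log N * (1 + δ)) := by
      rw [Real.rpow_def_of_pos (by linarith)]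
    rw [hpow, hZZ, ← Real.exp_add]
    conv_lhs => rw [hNexp]
    rw [← Real.exp_add, Real.exp_lt_exp, Real.log_exp]
    have hlN : (t : ℝ) ^ (1 - κ / 2) / 2 ≤ Real.log N := by
      have h1 : Real.log ((2 : ℝ) ^ P.card) ≤ Real.log N := by
        apply Real.log_le_log (by positivity)
        exact_mod_cast hN2
      rw [Real.log_pow] at h1
      have h2 := Real.log_two_gt_d9
      have h3 : 0 ≤ (t : ℝ) ^ (1 - κ / 2) := by positivity
      nlinarith
    have hZH : (Z : ℝ) * (H * Real.log Z) ≤ (t : ℝ) ^ (1 - 3 * κ / 2) * L := by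
      calc (Z : ℝ) * (H * Real.log Z) ≤ (t : ℝ) ^ (1 / 2 - κ) * (H * L) := by
            apply mul_le_mul hZle _ (by positivity) (by positivity)
            exact mul_le_mul_of_nonneg_left hlZ (by linarith)
        _ = (t : ℝ) ^ (1 - 3 * κ / 2) * L := by
            rw [← mul_assoc, hH, ← Real.rpow_add htp]
            congr 2
            ring
    have hZl : (Z : ℝ) * Real.log Z ≤ Z * (H * Real.log Z) := by
      apply mul_le_mul_of_nonneg_left _ hZpos.le
      nlinarith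
    have hkey : 3 * ((t : ℝ) ^ (1 - 3 * κ / 2) * L) < 3 / 4 * δ * Real.log N := by
      have h1 : 8 * L < δ * (t : ℝ) ^ κ := by
        have h2 : 9 ≤ L * δ := by rwa [div_le_iff₀ hδ] at h9δ
        calc 8 * L < 9 * L := by linarith
          _ ≤ (L * δ) * L := mul_le_mul_of_nonneg_right h2 hLpos.le
          _ = δ * L ^ 2 := by ring
          _ ≤ δ * (t : ℝ) ^ κ := mul_le_mul_of_nonneg_left hll hδ.le
      have h2 : (t : ℝ) ^ (1 - κ / 2) = (t : ℝ) ^ (1 - 3 * κ / 2) * (t : ℝ) ^ κ := by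
        rw [← Real.rpow_add htp]
        congr 1
        ring
      have h3 : 0 < (t : ℝ) ^ (1 - 3 * κ / 2) := by positivity
      calc 3 * ((t : ℝ) ^ (1 - 3 * κ / 2) * L) = 3 / 8 * ((t : ℝ) ^ (1 - 3 * κ / 2) * (8 * L)) := by ring
        _ < 3 / 8 * ((t : ℝ) ^ (1 - 3 * κ / 2) * (δ * (t : ℝ) ^ κ)) := by
            apply mul_lt_mul_of_pos_left _ (by norm_num)
            exact mul_lt_mul_of_pos_left h1 h3
        _ = 3 / 4 * δ * ((t : ℝ) ^ (1 - κ / 2) / 2) := by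
            rw [h2]
            ring
        _ ≤ 3 / 4 * δ * Real.log N := mul_le_mul_of_nonneg_left hlN (by positivity)
    linarith

end Pool.Agent.V7H10.DR
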