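import Pool.Agent.V7H10.DR.Vdm

/-!
The tensor product of many small Fourier matrices.
-/

set_option autoImplicit false

namespace Pool.Agent.V7H10.DR

open Finset Classical

variable {F : Type} [Field F]

lemma theta_exists (η : ℝ) (hη : 0 < η) : ∃ θ : ℝ, 0 < θ ∧ θ ≤ 1 / 2 ∧ ∀ d : ℝ, 2 ≤ d →
    2 * θ * (1 + Real.log (d ^ 2 / (2 * θ))) ≤ η * Real.log d := by
  obtain ⟨v, hv0, hv1, hv2⟩ : ∃ v : ℝ, 0 < v ∧ v ≤ 1 / 2 ∧ v ≤ η / 10 :=
    ⟨min (1 / 2) (η / 10), by positivity, min_le_left _ _, min_le_right _ _⟩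
  refine ⟨v ^ 2 / 2, by positivity, by nlinarith, fun d hd => ?_⟩
  have hd0 : 0 < d := by linarith
  have h1 : Real.log (d ^ 2 / (2 * (v ^ 2 / 2))) = 2 * Real.log d + 2 * Real.log (1 / v) := by
    have h2 : d ^ 2 / (2 * (v ^ 2 / 2)) = (d * (1 / v)) ^ 2 := by field_simp
    rw [h2, Real.log_pow, Real.log_mul hd0.ne' (by positivity)]
    push_cast
    ring
  have h3 : Real.log (1 / v) ≤ 1 / v - 1 := Real.log_le_sub_one_of_pos (by positivity)
  have h4 : v ^ 2 * Real.log (1 / v) ≤ v - v ^ 2 := by
    calc v ^ 2 * Real.log (1 / v) ≤ v ^ 2 * (1 / v - 1) := mul_le_mul_of_nonneg_left h3 (by positivity)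
      _ = v - v ^ 2 := by field_simp
  have h5 : (0.69 : ℝ) ≤ Real.log d := by
    have := Real.log_two_gt_d9
    have h6 := Real.log_le_log (by norm_num) hd
    linarith
  rw [h1]
  have h7 : 2 * (v ^ 2 / 2) * (1 + (2 * Real.log d + 2 * Real.log (1 / v))) =
      v ^ 2 + 2 * v ^ 2 * Real.log d + 2 * (v ^ 2 * Real.log (1 / v)) := by ring
  rw [h7]
  have h8 : v ^ 2 ≤ v / 2 := by nlinarith
  have h9 : 2 * v ^ 2 * Real.log d ≤ (η / 10) * Real.log d := by
    apply mul_le_mul_of_nonneg_right _ (by linarith)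
    linarith
  have h10 : 2 * v ≤ (3 / 10) * η * Real.log d := by nlinarith
  nlinarith

section

variable {J : Type} [Fintype J]

/-- the number of coordinates of size `d` -/
noncomputable def nn (dd : J → ℕ) (d : ℕ) : ℕ := (univ.filter (fun j => dd j = d)).card

/-- the tensor product of many small Fourier matrices -/
theorem full (η : ℝ) (hη : 0 < η) : ∃ θ : ℝ, 0 < θ ∧ ∀ (F : Type) [Field F] (J : Type) [Fintype J]
    (dd : J → ℕ) [∀ j, NeZero (dd j)] (ζ : J → F) (_ : ∀ j, IsPrimitiveRoot (ζ j) (dd j))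
    (Z : ℕ) (_ : 1 ≤ Z) (_ : ∀ j, dd j ≤ Z) (H : ℝ) (_ : 0 ≤ H),
    Dec (PK (fun j => FD (dd j) (ζ j)))
      (2 * Z ^ 2 * Real.exp (-(θ ^ 2 * H / (4 * Z))) * AA (fun j => ZMod (dd j)))
      (Real.exp (η * Real.log (AA (fun j => ZMod (dd j))) + Z * (H * Real.log Z))) := by
  obtain ⟨θ, hθ, hθ2, hth⟩ := theta_exists η hη
  refine ⟨θ, hθ, fun F _ J _ dd _ ζ hζ Z hZ hddZ H hH => ?_⟩
  have hZ' : (1 : ℝ) ≤ Z := by exact_mod_cast hZ
  have hlZ : 0 ≤ Real.log Z := Real.log_nonneg hZ'
  set A : ℝ := AA (fun j => ZMod (dd j)) with hA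
  have hA0 : 0 ≤ A := AA_nonneg
  -- the blocks
  have block : ∀ d : ℕ, 1 ≤ d → d ≤ Z → Dec (PK (fun j => if dd j = d then FD (dd j) (ζ j) else 1))
      (2 * Z * Real.exp (-(θ ^ 2 * H / (4 * Z))) * A)
      (Real.exp (η * (nn dd d * Real.log d) + H * Real.log Z)) := by
    intro d hd1 hdZ
    have hd1' : (1 : ℝ) ≤ d := by exact_mod_cast hd1
    have hdZ' : (d : ℝ) ≤ Z := by exact_mod_cast hdZ
    have hld : 0 ≤ Real.log d := Real.log_nonneg hd1'
    have hK : ∀ j, j ∈ univ.filter (fun j => dd j = d) ↔ dd j = d := fun j => by simp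
    by_cases hc : 2 ≤ d ∧ H ≤ (nn dd d : ℝ)
    · refine (sparse_block dd ζ hζ _ d hc.1 hK θ hθ hθ2).mono ?_ ?_
      · apply mul_le_mul_of_nonneg_right _ hA0
        apply mul_le_mul (by linarith) _ (Real.exp_pos _).le (by positivity)
        apply Real.exp_le_exp.2
        rw [neg_le_neg_iff]
        apply div_le_div₀ (by positivity) _ (by positivity) (by linarith)
        exact mul_le_mul_of_nonneg_left hc.2 (by positivity)
      · apply Real.exp_le_exp.2
        have h1 := hth d (by exact_mod_cast hc.1)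
        have h2 : (0 : ℝ) ≤ (univ.filter (fun j => dd j = d)).card := Nat.cast_nonneg _
        have h3 := mul_le_mul_of_nonneg_left h1 h2
        have h4 : 0 ≤ H * Real.log Z := by positivity
        unfold nn
        linarith
    · refine (dense_block dd (fun j => FD (dd j) (ζ j)) _ d hK).mono (by positivity) ?_
      have h1 : ((d : ℝ) ^ (univ.filter (fun j => dd j = d)).card) =
          Real.exp ((nn dd d : ℝ) * Real.log d) := by
        rw [Real.exp_nat_mul, Real.exp_log (by linarith)]
        rfl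
      rw [h1]
      apply Real.exp_le_exp.2
      have h0 : 0 ≤ η * ((nn dd d : ℝ) * Real.log d) := by positivity
      by_cases hd : 2 ≤ d
      · have h2 : (nn dd d : ℝ) < H := by
          by_contra h3
          exact hc ⟨hd, not_lt.1 h3⟩
        have h3 : (nn dd d : ℝ) * Real.log d ≤ H * Real.log Z :=
          mul_le_mul h2.le (Real.log_le_log (by linarith) hdZ') hld hH
        linarith
      · have h2 : d = 1 := by omega
        subst h2
        have h4 : 0 ≤ H * Real.log Z := by positivity
        simp only [Nat.cast_one, Real.log_one, mul_zero, zero_add]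
        exact h4
  -- the union of the blocks
  have step : ∀ D : Finset ℕ, D ⊆ Icc 1 Z →
      Dec (PK (fun j => if dd j ∈ D then FD (dd j) (ζ j) else 1))
      (D.card * (2 * Z * Real.exp (-(θ ^ 2 * H / (4 * Z))) * A))
      (Real.exp (∑ d ∈ D, (η * (nn dd d * Real.log d) + H * Real.log Z))) := by
    intro D
    induction D using Finset.induction_on with
    | empty =>
      intro _
      have h1 := dense_block dd (fun j => FD (dd j) (ζ j)) ∅ 0 (fun j => by
        simp only [notMem_empty, false_iff]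
        exact NeZero.ne (dd j))
      have h2 : (fun j => if dd j = 0 then FD (dd j) (ζ j) else 1) =
          (fun j => if dd j ∈ (∅ : Finset ℕ) then FD (dd j) (ζ j) else 1) := by
        funext j
        rw [if_neg (NeZero.ne (dd j)), if_neg (notMem_empty _)]
      rw [h2] at h1
      simpa using h1
    | insert d D hd ih =>
      intro hsub
      have h1 := ih (fun x hx => hsub (mem_insert_of_mem hx))
      have hd' := hsub (mem_insert_self d D)
      rw [mem_Icc] at hd'
      have h2 := block d hd'.1 hd'.2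
      have h3 := h2.mul h1 (Real.exp_pos _).le (Real.exp_pos _).le
      rw [PK_mul] at h3
      have h4 : (fun j => (if dd j = d then FD (dd j) (ζ j) else 1) *
          (if dd j ∈ D then FD (dd j) (ζ j) else 1)) =
          (fun j => if dd j ∈ insert d D then FD (dd j) (ζ j) else 1) := by
        funext j
        by_cases hj : dd j = d
        · have hjD : ¬ dd j ∈ D := by rw [hj]; exact hd
          rw [if_pos hj, if_neg hjD, if_pos (by rw [hj]; exact mem_insert_self d D), Matrix.mul_one]
        · rw [if_neg hj, Matrix.one_mul]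
          by_cases hjD : dd j ∈ D
          · rw [if_pos hjD, if_pos (mem_insert_of_mem hjD)]
          · rw [if_neg hjD, if_neg]
            rw [mem_insert, not_or]
            exact ⟨hj, hjD⟩
      rw [h4] at h3
      refine h3.mono ?_ ?_
      · rw [card_insert_of_notMem hd]
        push_cast
        linarith
      · rw [Finset.sum_insert hd, ← Real.exp_add]
  have h1 := step (Icc 1 Z) (Subset.refl _)
  have h2 : (fun j => if dd j ∈ Icc 1 Z then FD (dd j) (ζ j) else 1) = (fun j => FD (dd j) (ζ j)) := by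
    funext j
    rw [if_pos]
    rw [mem_Icc]
    exact ⟨Nat.one_le_iff_ne_zero.2 (NeZero.ne (dd j)), hddZ j⟩
  rw [h2] at h1
  refine h1.mono ?_ ?_
  · rw [Nat.card_Icc]
    apply le_of_eq
    simp only [Nat.add_sub_cancel]
    ring
  · apply Real.exp_le_exp.2
    rw [Finset.sum_add_distrib, ← Finset.mul_sum, Finset.sum_const, Nat.card_Icc, nsmul_eq_mul]
    simp only [Nat.add_sub_cancel]
    have h3 : ∑ d ∈ Icc 1 Z, (nn dd d : ℝ) * Real.log d = Real.log A := by
      rw [hA]
      unfold AA
      rw [Real.log_prod]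
      · have h4 : ∀ d ∈ Icc 1 Z, (nn dd d : ℝ) * Real.log d =
            ∑ j ∈ univ.filter (fun j => dd j = d), Real.log (Fintype.card (ZMod (dd j))) := by
          intro d _
          have h5 : ∀ j ∈ univ.filter (fun j => dd j = d),
              Real.log (Fintype.card (ZMod (dd j))) = Real.log d := by
            intro j hj
            rw [mem_filter] at hj
            rw [ZMod.card, hj.2]
          rw [Finset.sum_congr rfl h5, Finset.sum_const, nsmul_eq_mul]
          rfl
        rw [Finset.sum_congr rfl h4]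
        rw [Finset.sum_fiberwise_of_maps_to]
        intro j _
        rw [mem_Icc]
        exact ⟨Nat.one_le_iff_ne_zero.2 (NeZero.ne (dd j)), hddZ j⟩
      · intro j _
        rw [ZMod.card]
        exact_mod_cast NeZero.ne (dd j)
    rw [h3]

end

end Pool.Agent.V7H10.DR
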