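import Pool.Agent.V7H10.DR.Full

/-!
Matrices `f (x y)` over a finite abelian group whose exponent has small prime power divisors.
-/

set_option autoImplicit false

namespace Pool.Agent.V7H10.DR

open Finset Classical

lemma FD_char {F : Type} [Field F] (d : ℕ) [NeZero d] (ζ : F) (h : ζ ^ d = 1) (x y : ZMod d) :
    FD d ζ x y = AddChar.zmodChar d h (x * y) := by
  rw [AddChar.zmodChar_apply, FD, Matrix.of_apply, ZMod.val_mul, ← pow_eq_pow_mod _ h]

section four

variable {F : Type} [Field F] {J : Type} [Fintype J] {dd : J → ℕ} [∀ j, NeZero (dd j)] {ζ : J → F}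

lemma W_add (hζ : ∀ j, IsPrimitiveRoot (ζ j) (dd j)) (x y z : ∀ j, ZMod (dd j)) :
    PK (fun j => FD (dd j) (ζ j)) x (y + z) =
      PK (fun j => FD (dd j) (ζ j)) x y * PK (fun j => FD (dd j) (ζ j)) x z := by
  unfold PK
  rw [Matrix.of_apply, Matrix.of_apply, Matrix.of_apply, ← Finset.prod_mul_distrib]
  apply Finset.prod_congr rfl
  intro j _
  simp only []
  rw [FD_char _ _ (hζ j).pow_eq_one, FD_char _ _ (hζ j).pow_eq_one, FD_char _ _ (hζ j).pow_eq_one,
    Pi.add_apply, mul_add, AddChar.map_add_eq_mul]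

lemma W_symm (x y : ∀ j, ZMod (dd j)) :
    PK (fun j => FD (dd j) (ζ j)) x y = PK (fun j => FD (dd j) (ζ j)) y x := by
  unfold PK FD
  simp only [Matrix.of_apply]
  apply Finset.prod_congr rfl
  intro j _
  rw [mul_comm]

lemma W_ne (hζ : ∀ j, IsPrimitiveRoot (ζ j) (dd j)) (x y : ∀ j, ZMod (dd j)) :
    PK (fun j => FD (dd j) (ζ j)) x y ≠ 0 := by
  unfold PK FD
  simp only [Matrix.of_apply]
  rw [Finset.prod_ne_zero_iff]
  intro j _
  exact pow_ne_zero _ ((hζ j).ne_zero (NeZero.ne (dd j)))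

lemma W_sum (hζ : ∀ j, IsPrimitiveRoot (ζ j) (dd j)) (w : ∀ j, ZMod (dd j)) :
    ∑ x, PK (fun j => FD (dd j) (ζ j)) x w =
      if w = 0 then (Fintype.card (∀ j, ZMod (dd j)) : F) else 0 := by
  have h1 : ∑ x, PK (fun j => FD (dd j) (ζ j)) x w = ∏ j, ∑ v : ZMod (dd j), FD (dd j) (ζ j) v (w j) := by
    rw [Finset.prod_univ_sum, Fintype.piFinset_univ]
    rfl
  rw [h1]
  have h2 : ∀ j, ∑ v : ZMod (dd j), FD (dd j) (ζ j) v (w j) =
      if w j = 0 then (Fintype.card (ZMod (dd j)) : F) else 0 := by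
    intro j
    have h3 := AddChar.sum_mulShift (w j) (AddChar.zmodChar_primitive_of_primitive_root (dd j) (hζ j))
    have h4 : ∑ v : ZMod (dd j), FD (dd j) (ζ j) v (w j) =
        ∑ v : ZMod (dd j), AddChar.zmodChar (dd j) (hζ j).pow_eq_one (v * w j) := by
      apply Finset.sum_congr rfl
      intro v _
      rw [FD_char _ _ (hζ j).pow_eq_one]
    rw [h4, h3]
    split_ifs <;> simp
  simp_rw [h2]
  rw [Finset.prod_ite_zero]
  by_cases hw : w = 0
  · rw [if_pos hw, if_pos (fun j _ => by rw [hw]; rfl), Fintype.card_pi]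
    push_cast
    rfl
  · rw [if_neg hw, if_neg]
    intro h
    apply hw
    funext j
    exact h j (mem_univ j)

/-- a Hankel matrix is diagonalised by the Fourier matrix -/
lemma hankel (hζ : ∀ j, IsPrimitiveRoot (ζ j) (dd j)) (hne : ∀ j, (dd j : F) ≠ 0)
    (h : (∀ j, ZMod (dd j)) → F) :
    ∃ c : (∀ j, ZMod (dd j)) → F, Matrix.of (fun x y => h (x + y)) =
      PK (fun j => FD (dd j) (ζ j)) * (Matrix.diagonal c * PK (fun j => FD (dd j) (ζ j))) := by
  set W := PK (fun j => FD (dd j) (ζ j)) with hW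
  set N : F := (Fintype.card (∀ j, ZMod (dd j)) : F) with hN
  have hN0 : N ≠ 0 := by
    rw [hN, Fintype.card_pi, Nat.cast_prod, Finset.prod_ne_zero_iff]
    intro j _
    rw [ZMod.card]
    exact hne j
  refine ⟨fun a => N⁻¹ * ∑ z, h z * (W a z)⁻¹, ?_⟩
  ext x y
  rw [Matrix.of_apply, Matrix.mul_apply]
  simp only [Matrix.diagonal_mul]
  have hadd : ∀ a z, W a (x + y - z) = W a x * W a y * (W a z)⁻¹ := by
    intro a z
    have h1 : W a (x + y - z + z) = W a (x + y - z) * W a z := W_add hζ a _ _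
    rw [sub_add_cancel, hW, W_add hζ a x y, ← hW] at h1
    rw [h1, mul_assoc, mul_inv_cancel₀ (W_ne hζ a z), mul_one]
  have h2 : ∀ a, W x a * ((N⁻¹ * ∑ z, h z * (W a z)⁻¹) * W a y) =
      N⁻¹ * ∑ z, h z * W a (x + y - z) := by
    intro a
    rw [hW, W_symm x a, ← hW]
    have h3 : W a x * ((N⁻¹ * ∑ z, h z * (W a z)⁻¹) * W a y) =
        N⁻¹ * ((∑ z, h z * (W a z)⁻¹) * (W a x * W a y)) := by ring
    rw [h3, Finset.sum_mul]
    congr 1
    apply Finset.sum_congr rfl
    intro z _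
    rw [hadd]
    ring
  simp_rw [h2]
  rw [← Finset.mul_sum, Finset.sum_comm]
  have h4 : ∀ z, ∑ a, h z * W a (x + y - z) = if z = x + y then h z * N else 0 := by
    intro z
    rw [← Finset.mul_sum, hW, W_sum hζ]
    by_cases hz : z = x + y
    · rw [if_pos hz, if_pos (by rw [hz, sub_self])]
    · rw [if_neg hz, if_neg, mul_zero]
      intro h5
      exact hz (sub_eq_zero.1 h5).symm
  simp_rw [h4]
  rw [Finset.sum_ite_eq']
  simp only [Finset.mem_univ, if_true]
  field_simp

end four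

/-- **matrices `f (x y)`** over a finite abelian group -/
theorem group_dec (η : ℝ) (hη : 0 < η) : ∃ θ : ℝ, 0 < θ ∧ ∀ (F : Type) [Field F]
    (G : Type) [CommGroup G] [Fintype G] (M Z : ℕ) (_ : (M : F) ≠ 0) (_ : ∀ g : G, g ^ M = 1) (_ : 1 ≤ Z)
    (_ : ∀ q e : ℕ, q.Prime → q ^ e ∣ M → q ^ e ≤ Z) (ω : F) (_ : IsPrimitiveRoot ω M)
    (H : ℝ) (_ : 0 ≤ H) (f : G → F),
    Dec (Matrix.of (fun x y : G => f (x * y)))
      (4 * Z ^ 2 * Real.exp (-(θ ^ 2 * H / (4 * Z))) * Fintype.card G)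
      (Real.exp (2 * (η * Real.log (Fintype.card G) + Z * (H * Real.log Z)))) := by
  obtain ⟨θ, hθ, hfull⟩ := full η hη
  refine ⟨θ, hθ, ?_⟩
  intro F _ G _ _ M Z hMF hG hZ hPP ω hω H hH f
  have hM : 0 < M := by
    rcases Nat.eq_zero_or_pos M with h | h
    · exact absurd (by rw [h, Nat.cast_zero]) hMF
    · exact h
  obtain ⟨ι, hι, p, hp, e, ⟨iso⟩⟩ := AddCommGroup.equiv_directSum_zmod_of_finite (Additive G)
  have : ∀ j, NeZero (p j ^ e j) := fun j => ⟨pow_ne_zero _ (hp j).ne_zero⟩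
  set E : Additive G ≃+ (∀ j, ZMod (p j ^ e j)) := iso.trans (DirectSum.addEquivProd _) with hE
  have hdvd : ∀ j, p j ^ e j ∣ M := by
    intro j
    have h1 : M • (Pi.single j (1 : ZMod (p j ^ e j)) : ∀ j, ZMod (p j ^ e j)) = 0 := by
      obtain ⟨g, hg⟩ := E.surjective (Pi.single j (1 : ZMod (p j ^ e j)))
      rw [← hg, ← map_nsmul]
      have h2 : M • g = 0 := by
        have := hG g.toMul
        rw [← toMul_nsmul] at this
        exact this
      rw [h2, map_zero]
    have h3 := congrFun h1 j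
    rw [Pi.smul_apply, Pi.single_eq_same, Pi.zero_apply, nsmul_eq_mul, mul_one] at h3
    exact (ZMod.natCast_eq_zero_iff _ _).1 h3
  have hle : ∀ j, p j ^ e j ≤ Z := fun j => hPP _ _ (hp j) (hdvd j)
  set ζ : ι → F := fun j => ω ^ (M / p j ^ e j) with hζdef
  have hζ : ∀ j, IsPrimitiveRoot (ζ j) (p j ^ e j) := by
    intro j
    apply hω.pow hM
    rw [Nat.div_mul_cancel (hdvd j)]
  have hd := hfull F ι (fun j => p j ^ e j) ζ hζ Z hZ hle H hH
  set ε : G ≃ (∀ j, ZMod (p j ^ e j)) := Additive.ofMul.trans E.toEquiv with hε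
  have hεmul : ∀ x y : G, ε (x * y) = ε x + ε y := by
    intro x y
    rw [hε]
    simp only [Equiv.trans_apply, ofMul_mul]
    exact map_add E _ _
  have hcard : (Fintype.card (∀ j, ZMod (p j ^ e j)) : ℝ) = Fintype.card G := by
    rw [Fintype.card_congr ε]
  rw [AA_eq, hcard] at hd
  obtain ⟨c, hc⟩ := hankel hζ (fun j => by
    obtain ⟨k, hk⟩ := hdvd j
    rw [hk, Nat.cast_mul] at hMF
    exact left_ne_zero_of_mul hMF) (fun a => f (ε.symm a))
  have hdiag : Dec (Matrix.diagonal c) 0 1 := by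
    apply Dec.of_sparse
    constructor
    · intro i
      have : (univ.filter (fun j => (Matrix.diagonal c) i j ≠ 0)).card ≤ 1 := by
        rw [card_le_one]
        intro a ha b hb
        rw [mem_filter] at ha hb
        have h2 : i = a := by
          by_contra h3
          exact ha.2 (Matrix.diagonal_apply_ne _ h3)
        have h4 : i = b := by
          by_contra h3
          exact hb.2 (Matrix.diagonal_apply_ne _ h3)
        rw [← h2, ← h4]
      exact_mod_cast this
    · intro i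
      have : (univ.filter (fun j => (Matrix.diagonal c) j i ≠ 0)).card ≤ 1 := by
        rw [card_le_one]
        intro a ha b hb
        rw [mem_filter] at ha hb
        have h2 : a = i := by
          by_contra h3
          exact ha.2 (Matrix.diagonal_apply_ne _ h3)
        have h4 : b = i := by
          by_contra h3
          exact hb.2 (Matrix.diagonal_apply_ne _ h3)
        rw [h2, h4]
      exact_mod_cast this
  have h5 := (hdiag.mul hd zero_le_one (Real.exp_pos _).le)
  have h6 := hd.mul h5 (Real.exp_pos _).le (by positivity)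
  rw [← hc] at h6
  have h7 := h6.reindex ε ε
  have h8 : (Matrix.of (fun x y : (∀ j, ZMod (p j ^ e j)) => f (ε.symm (x + y)))).submatrix ε ε =
      Matrix.of (fun x y : G => f (x * y)) := by
    ext x y
    rw [Matrix.submatrix_apply, Matrix.of_apply, Matrix.of_apply, ← hεmul, Equiv.symm_apply_apply]
  rw [h8] at h7
  refine h7.mono ?_ ?_
  · apply le_of_eq
    ring
  · rw [one_mul, ← Real.exp_add]
    apply le_of_eq
    congr 1
    ring

end Pool.Agent.V7H10.DR
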