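import Pool.Agent.TH76.LehP.GoldA

/-!
Shifted primes without large prime factors.
-/

set_option autoImplicit false

namespace Pool.Agent.V7H10.DR

open Finset Filter Pool.Agent.TH76.LehP

/-- the contribution of the small primes, from below -/
lemma bv_lower : ∃ C : ℝ, 0 < C ∧ ∃ B x0 : ℕ, ∀ x : ℕ, x0 ≤ x → ∀ D : ℕ, 1 ≤ D →
    (D : ℝ) ≤ x / Real.log x ^ B → (D : ℝ) ^ 2 ≤ x / Real.log x ^ B → (D : ℝ) ^ 2 ≤ x →
    ((PP x).card : ℝ) * (Real.log D - C) - x / Real.log x ≤
      ∑ q ∈ (Icc 1 D).filter Nat.Prime, Real.log q * ((P1 x q).card : ℝ) := by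
  obtain ⟨C1, hC1⟩ := Helper923.HMertens.mertens_log
  have hC10 : 0 ≤ C1 := (abs_nonneg _).trans (hC1 1 le_rfl)
  obtain ⟨B, x0, h2⟩ := bv_one
  refine ⟨C1 + 1, by linarith, B, x0 + 3, fun x hx D hD1 hD2 hD3 hD4 => ?_⟩
  have hx' : (3 : ℝ) ≤ x := by exact_mod_cast (by omega : 3 ≤ x)
  have hL : 0 < Real.log x := Real.log_pos (by linarith)
  have hD1' : (1 : ℝ) ≤ D := by exact_mod_cast hD1
  have h3 := (abs_le.1 (hC1 D hD1)).1
  have h4 := h2 x (by omega) D hD2 hD3
  set π : ℝ := ((PP x).card : ℝ) with hπ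
  have hπ0 : 0 ≤ π := Nat.cast_nonneg _
  have hterm : ∀ q ∈ (Icc 1 D).filter Nat.Prime,
      π * (Real.log q / q) - Real.log x * |((P1 x q).card : ℝ) - π / (Nat.totient q : ℝ)| ≤
      Real.log q * ((P1 x q).card : ℝ) := by
    intro q hq
    rw [mem_filter, mem_Icc] at hq
    have hq1 : (1 : ℝ) < q := by exact_mod_cast hq.2.one_lt
    have hq0 : (0 : ℝ) < q := by linarith
    have hlq : 0 ≤ Real.log q := Real.log_nonneg hq1.le
    have hlqx : Real.log q ≤ Real.log x := by
      apply Real.log_le_log hq0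
      have : (q : ℝ) ≤ D := by exact_mod_cast hq.1.2
      nlinarith
    have htot : (Nat.totient q : ℝ) = (q : ℝ) - 1 := by
      rw [Nat.totient_prime hq.2, Nat.cast_sub hq.2.one_lt.le, Nat.cast_one]
    have h5 : π / q ≤ π / (Nat.totient q : ℝ) := by
      rw [htot]
      exact div_le_div_of_nonneg_left hπ0 (by linarith) (by linarith)
    have h6 := neg_abs_le (((P1 x q).card : ℝ) - π / (Nat.totient q : ℝ))
    have h7 : π / q - |((P1 x q).card : ℝ) - π / (Nat.totient q : ℝ)| ≤ ((P1 x q).card : ℝ) := by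
      linarith
    have h8 := mul_le_mul_of_nonneg_left h7 hlq
    have h9 : Real.log q * |((P1 x q).card : ℝ) - π / (Nat.totient q : ℝ)| ≤
        Real.log x * |((P1 x q).card : ℝ) - π / (Nat.totient q : ℝ)| :=
      mul_le_mul_of_nonneg_right hlqx (abs_nonneg _)
    have h10 : π * (Real.log q / q) = Real.log q * (π / q) := by ring
    rw [h10]
    rw [mul_sub] at h8
    linarith
  refine le_trans ?_ (Finset.sum_le_sum hterm)
  rw [Finset.sum_sub_distrib, ← Finset.mul_sum, ← Finset.mul_sum]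
  have h10 : π * (Real.log D - (C1 + 1)) ≤
      π * ∑ q ∈ (Icc 1 D).filter Nat.Prime, Real.log q / (q : ℝ) := by
    apply mul_le_mul_of_nonneg_left _ hπ0
    linarith
  have h11 : Real.log x * ∑ q ∈ (Icc 1 D).filter Nat.Prime,
      |((P1 x q).card : ℝ) - π / (Nat.totient q : ℝ)| ≤ x / Real.log x := by
    calc _ ≤ Real.log x * (x / Real.log x ^ 2) := by
          apply mul_le_mul_of_nonneg_left _ hL.le
          refine le_trans ?_ h4
          exact Finset.sum_le_sum_of_subset_of_nonneg (filter_subset _ _) (fun _ _ _ => abs_nonneg _)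
      _ = x / Real.log x := by field_simp
  linarith

/-- the sum over the prime factors of `p - 1` -/
lemma sum_log_primeFactors (m : ℕ) (hm : m ≠ 0) :
    ∑ q ∈ m.primeFactors, Real.log q ≤ Real.log m := by
  rw [← Real.log_prod (fun q hq => by
    exact_mod_cast (Nat.prime_of_mem_primeFactors hq).ne_zero)]
  apply Real.log_le_log
  · apply Finset.prod_pos
    intro q hq
    exact_mod_cast (Nat.prime_of_mem_primeFactors hq).pos
  · have := Nat.le_of_dvd (Nat.pos_of_ne_zero hm) (Nat.prod_primeFactors_dvd m)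
    rw [← Nat.cast_prod]
    exact_mod_cast this

/-- the weight of the large prime factors of `p - 1` -/
noncomputable def wt (D p : ℕ) : ℝ := ∑ q ∈ (p - 1).primeFactors.filter (fun q => D < q), Real.log q

lemma sum_hi (t D : ℕ) :
    ∑ q ∈ (Icc 1 D).filter Nat.Prime, Real.log q * ((P1 t q).card : ℝ) +
      ∑ p ∈ PP t, wt D p ≤ ((PP t).card : ℝ) * Real.log t := by
  have h1 : ∀ q : ℕ, ((P1 t q).card : ℝ) = ∑ p ∈ PP t, if q ∣ p - 1 then (1 : ℝ) else 0 := by
    intro q
    rw [← Finset.sum_filter, Finset.sum_const, nsmul_eq_mul, mul_one]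
    congr 2
    ext p
    rw [mem_P1, mem_filter, mem_PP]
    tauto
  have h2 : ∑ q ∈ (Icc 1 D).filter Nat.Prime, Real.log q * ((P1 t q).card : ℝ) =
      ∑ p ∈ PP t, ∑ q ∈ (Icc 1 D).filter Nat.Prime, if q ∣ p - 1 then Real.log q else 0 := by
    rw [Finset.sum_comm]
    apply Finset.sum_congr rfl
    intro q _
    rw [h1, Finset.mul_sum]
    apply Finset.sum_congr rfl
    intro p _
    rw [mul_ite, mul_one, mul_zero]
  rw [h2, ← Finset.sum_add_distrib, ← nsmul_eq_mul, ← Finset.sum_const]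
  apply Finset.sum_le_sum
  intro p hp
  rw [mem_PP] at hp
  have hp2 := hp.2.two_le
  have hp1 : p - 1 ≠ 0 := by omega
  have h3 : ∑ q ∈ (Icc 1 D).filter Nat.Prime, (if q ∣ p - 1 then Real.log q else 0) =
      ∑ q ∈ (p - 1).primeFactors.filter (fun q => ¬ D < q), Real.log q := by
    rw [← Finset.sum_filter]
    apply Finset.sum_congr _ (fun _ _ => rfl)
    ext q
    simp only [mem_filter, mem_Icc, Nat.mem_primeFactors]
    constructor
    · rintro ⟨⟨⟨_, h4⟩, h5⟩, h6⟩
      exact ⟨⟨h5, h6, hp1⟩, by omega⟩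
    · rintro ⟨⟨h5, h6, _⟩, h7⟩
      have := h5.pos
      exact ⟨⟨⟨by omega, by omega⟩, h5⟩, h6⟩
  rw [h3]
  unfold wt
  rw [add_comm, Finset.sum_filter_add_sum_filter_not]
  refine (sum_log_primeFactors (p - 1) hp1).trans ?_
  apply Real.log_le_log (by exact_mod_cast Nat.pos_of_ne_zero hp1)
  exact_mod_cast (by omega : p - 1 ≤ t)

lemma wt_nonneg (D p : ℕ) : 0 ≤ wt D p :=
  Finset.sum_nonneg (fun q _ => Real.log_natCast_nonneg q)

lemma wt_ge (D p q z : ℕ) (hz : 1 ≤ z) (hzq : z ≤ q) (hD : D < q) (hq : q.Prime) (hqp : q ∣ p - 1)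
    (hp : p - 1 ≠ 0) : Real.log z ≤ wt D p := by
  have h1 : Real.log z ≤ Real.log q :=
    Real.log_le_log (by exact_mod_cast hz) (by exact_mod_cast hzq)
  refine h1.trans ?_
  unfold wt
  apply Finset.single_le_sum (f := fun q : ℕ => Real.log q) (fun q _ => Real.log_natCast_nonneg q)
  rw [mem_filter, Nat.mem_primeFactors]
  exact ⟨⟨hq, hqp, hp⟩, hD⟩

/-- the primes `p ≤ t` such that `p - 1` has a prime factor above `D` -/
def bad (t D : ℕ) : Finset ℕ :=
  (PP t).filter (fun p => ((p - 1).primeFactors.filter (fun q => D < q)).Nonempty)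

lemma mem_bad {t D p : ℕ} : p ∈ bad t D ↔ p ∈ PP t ∧ ∃ q : ℕ, q.Prime ∧ q ∣ p - 1 ∧ D < q := by
  unfold bad
  rw [mem_filter]
  apply and_congr_right
  intro hp
  have := (mem_PP.1 hp).2.two_le
  constructor
  · rintro ⟨q, hq⟩
    rw [mem_filter, Nat.mem_primeFactors] at hq
    exact ⟨q, hq.1.1, hq.1.2.1, hq.2⟩
  · rintro ⟨q, hq, h1, h⟩
    refine ⟨q, ?_⟩
    rw [mem_filter, Nat.mem_primeFactors]
    exact ⟨⟨hq, h1, by omega⟩, h⟩

/-- the basic inequality -/
lemma count_bad (t D y : ℕ) (hD : 1 ≤ D) (hDy : D ≤ y) :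
    ((bad t D).card : ℝ) * Real.log D +
      (((bad t D).card : ℝ) -
        ∑ q ∈ (Ioc D y).filter (fun q => q.Prime), ((P1 t q).card : ℝ)) * (Real.log y - Real.log D) +
      ∑ q ∈ (Icc 1 D).filter Nat.Prime, Real.log q * ((P1 t q).card : ℝ) ≤
      ((PP t).card : ℝ) * Real.log t := by
  have h1 := sum_hi t D
  set Bad := bad t D with hBad
  set Bad2 := bad t y with hBad2
  have hlD : 0 ≤ Real.log D := Real.log_natCast_nonneg D
  have hly : 0 ≤ Real.log y - Real.log D := by
    rw [sub_nonneg]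
    exact Real.log_le_log (by exact_mod_cast hD) (by exact_mod_cast hDy)
  have h2 : (Bad.card : ℝ) * Real.log D + (Bad2.card : ℝ) * (Real.log y - Real.log D) ≤
      ∑ p ∈ PP t, wt D p := by
    have e1 : (Bad.card : ℝ) * Real.log D = ∑ p ∈ PP t, if p ∈ Bad then Real.log D else 0 := by
      rw [← Finset.sum_filter, Finset.sum_const, nsmul_eq_mul]
      congr 3
      ext p
      rw [mem_filter]
      exact ⟨fun h => ⟨(mem_bad.1 h).1, h⟩, fun h => h.2⟩
    have e2 : (Bad2.card : ℝ) * (Real.log y - Real.log D) =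
        ∑ p ∈ PP t, if p ∈ Bad2 then (Real.log y - Real.log D) else 0 := by
      rw [← Finset.sum_filter, Finset.sum_const, nsmul_eq_mul]
      congr 3
      ext p
      rw [mem_filter]
      exact ⟨fun h => ⟨(mem_bad.1 h).1, h⟩, fun h => h.2⟩
    rw [e1, e2, ← Finset.sum_add_distrib]
    apply Finset.sum_le_sum
    intro p hp
    have hp' := mem_PP.1 hp
    have hp1 : p - 1 ≠ 0 := by
      have := hp'.2.two_le
      omega
    by_cases hb2 : p ∈ Bad2
    · obtain ⟨q, hq, hqp, hyq⟩ := (mem_bad.1 hb2).2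
      have hb : p ∈ Bad := by
        rw [hBad, mem_bad]
        exact ⟨hp, q, hq, hqp, by omega⟩
      rw [if_pos hb, if_pos hb2]
      have := wt_ge D p q y (by omega) hyq.le (by omega) hq hqp hp1
      linarith
    · rw [if_neg hb2]
      by_cases hb : p ∈ Bad
      · obtain ⟨q, hq, hqp, hDq⟩ := (mem_bad.1 hb).2
        rw [if_pos hb]
        have := wt_ge D p q D hD hDq.le hDq hq hqp hp1
        linarith
      · rw [if_neg hb, add_zero]
        exact wt_nonneg D p
  have h3 : (Bad.card : ℝ) - ∑ q ∈ (Ioc D y).filter (fun q => q.Prime), ((P1 t q).card : ℝ) ≤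
      Bad2.card := by
    rw [sub_le_iff_le_add, ← Nat.cast_sum, ← Nat.cast_add, Nat.cast_le]
    have h4 : Bad ⊆ Bad2 ∪ ((Ioc D y).filter (fun q => q.Prime)).biUnion (fun q => P1 t q) := by
      intro p hp
      rw [hBad, mem_bad] at hp
      obtain ⟨hpp, q, hq, hqp, hDq⟩ := hp
      rw [mem_union]
      rcases Nat.lt_or_ge y q with h5 | h5
      · left
        rw [hBad2, mem_bad]
        exact ⟨hpp, q, hq, hqp, h5⟩
      · right
        rw [mem_biUnion]
        refine ⟨q, ?_, ?_⟩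
        · rw [mem_filter, mem_Ioc]
          exact ⟨⟨hDq, h5⟩, hq⟩
        · rw [mem_P1]
          exact ⟨(mem_PP.1 hpp).1, (mem_PP.1 hpp).2, hqp⟩
    exact (card_le_card h4).trans ((card_union_le _ _).trans (Nat.add_le_add_left card_biUnion_le _))
  have h4 := mul_le_mul_of_nonneg_right h3 hly
  linarith

end Pool.Agent.V7H10.DR
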