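import Pool.Agent.V7H10.DR.NT1

/-!
A positive proportion of the shifted primes `p - 1 ≤ t` has all its prime factors below `t ^ (1/2 - κ)`.
-/

set_option autoImplicit false

namespace Pool.Agent.V7H10.DR

open Finset Filter Pool.Agent.TH76.LehP

theorem many_good : ∃ κ : ℝ, 0 < κ ∧ κ ≤ 1 / 32 ∧ ∃ T : ℕ, ∀ t : ℕ, T ≤ t →
    ((bad t ⌊(t : ℝ) ^ (1 / 2 - κ)⌋₊).card : ℝ) ≤ (1 - κ) * ((PP t).card : ℝ) := by
  obtain ⟨C1, hC1, B, x0, hbv⟩ := bv_lower
  obtain ⟨C2, hC2, hmid⟩ := mid_part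
  obtain ⟨T1, hT1⟩ := cheb_lower
  obtain ⟨κ₀, hκ₀⟩ : ∃ κ₀ : ℝ, κ₀ = min (1 / 4) (1 / (128 * C2)) := ⟨_, rfl⟩
  have hκ0 : 0 < κ₀ := by rw [hκ₀]; positivity
  have hκ4 : κ₀ ≤ 1 / 4 := by rw [hκ₀]; exact min_le_left _ _
  have hκC : 8 * C2 * κ₀ ≤ 1 / 16 := by
    have h1 : κ₀ ≤ 1 / (128 * C2) := by rw [hκ₀]; exact min_le_right _ _
    calc 8 * C2 * κ₀ ≤ 8 * C2 * (1 / (128 * C2)) := mul_le_mul_of_nonneg_left h1 (by positivity)
      _ = 1 / 16 := by field_simp; norm_num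
  obtain ⟨κ, hκdef⟩ : ∃ κ : ℝ, κ = κ₀ / 8 := ⟨_, rfl⟩
  have hκ : 0 < κ := by rw [hκdef]; positivity
  have hκ32 : κ ≤ 1 / 32 := by rw [hκdef]; linarith
  have hev : ∀ᶠ t : ℕ in atTop, x0 ≤ t ∧ T1 ≤ t ∧ 256 ≤ t ∧ 128 * C2 ≤ Real.log t ∧
      (C1 + 5) / κ ≤ Real.log t ∧ Real.log t ^ B ≤ (t : ℝ) ^ (2 * κ) ∧ 16 ≤ Real.log t := by
    filter_upwards [eventually_ge_atTop x0, eventually_ge_atTop T1, eventually_ge_atTop 256,
      ev_log (128 * C2), ev_log ((C1 + 5) / κ), ev_logpow B (2 * κ) (by linarith),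
      ev_log 16] with t h1 h2 h3 h4 h5 h6 h7
    exact ⟨h1, h2, h3, h4, h5, h6, h7⟩
  obtain ⟨T, hT⟩ := eventually_atTop.mp hev
  refine ⟨κ, hκ, hκ32, T, fun t htT => ?_⟩
  obtain ⟨ht0, ht1, ht2, hl1, hl2, hl3, hl4⟩ := hT t htT
  have ht' : (256 : ℝ) ≤ t := by exact_mod_cast ht2
  have htp : (0 : ℝ) < t := by linarith
  have hL : 0 < Real.log t := by linarith
  set L := Real.log t with hLdef
  set D : ℕ := ⌊(t : ℝ) ^ (1 / 2 - κ)⌋₊ with hD
  set y : ℕ := ⌊(t : ℝ) ^ (1 / 2 + κ₀)⌋₊ with hy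
  have hone : (1 : ℝ) ≤ (t : ℝ) ^ (1 / 2 - κ) := Real.one_le_rpow (by linarith) (by linarith)
  have hD1 : 1 ≤ D := by
    apply Nat.le_floor
    simpa using hone
  have hDle : (D : ℝ) ≤ (t : ℝ) ^ (1 / 2 - κ) := Nat.floor_le (by positivity)
  have hD1' : (1 : ℝ) ≤ D := by exact_mod_cast hD1
  have hDge : (t : ℝ) ^ (1 / 2 - κ) ≤ 2 * (D : ℝ) := by
    have h1 : (t : ℝ) ^ (1 / 2 - κ) < (D : ℝ) + 1 := Nat.lt_floor_add_one _
    linarith
  have hDge' : (t : ℝ) ^ (1 / 2 - κ₀) ≤ 2 * (D : ℝ) := by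
    refine le_trans ?_ hDge
    exact Real.rpow_le_rpow_of_exponent_le (by linarith) (by linarith)
  have hyle : (y : ℝ) ≤ (t : ℝ) ^ (1 / 2 + κ₀) := Nat.floor_le (by positivity)
  have hDy : D ≤ y := by
    apply Nat.floor_le_floor
    exact Real.rpow_le_rpow_of_exponent_le (by linarith) (by linarith)
  have hy1' : (1 : ℝ) ≤ y := by exact_mod_cast hD1.trans hDy
  have hyge : (t : ℝ) ^ (1 / 2 + κ₀) ≤ 2 * (y : ℝ) := by
    have h1 : (t : ℝ) ^ (1 / 2 + κ₀) < (y : ℝ) + 1 := Nat.lt_floor_add_one _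
    linarith
  have hDD : (D : ℝ) ^ 2 ≤ (t : ℝ) ^ (1 - 2 * κ) := by
    calc (D : ℝ) ^ 2 ≤ ((t : ℝ) ^ (1 / 2 - κ)) ^ 2 := pow_le_pow_left₀ (by positivity) hDle 2
      _ = (t : ℝ) ^ (1 - 2 * κ) := by
          rw [← Real.rpow_natCast, ← Real.rpow_mul htp.le]
          congr 1
          push_cast
          ring
  have hDt : (D : ℝ) ^ 2 ≤ t / L ^ B := by
    rw [le_div_iff₀ (by positivity)]
    calc (D : ℝ) ^ 2 * L ^ B ≤ (t : ℝ) ^ (1 - 2 * κ) * (t : ℝ) ^ (2 * κ) :=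
          mul_le_mul hDD hl3 (by positivity) (by positivity)
      _ = t := by rw [← Real.rpow_add htp]; simp
  have hDt1 : (D : ℝ) ≤ t / L ^ B := by
    refine le_trans ?_ hDt
    rw [pow_two]
    exact le_mul_of_one_le_right (by positivity) hD1'
  have hDt2 : (D : ℝ) ^ 2 ≤ t := by
    refine hDD.trans ?_
    calc (t : ℝ) ^ (1 - 2 * κ) ≤ (t : ℝ) ^ (1 : ℝ) :=
          Real.rpow_le_rpow_of_exponent_le (by linarith) (by linarith)
      _ = t := Real.rpow_one _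
  -- logarithms
  have hlog2 : Real.log 2 ≤ 1 := by have := Real.log_two_lt_d9; linarith
  have hlD : (1 / 2 - κ) * L - 1 ≤ Real.log D := by
    have h1 := Real.log_le_log (by positivity) hDge
    rw [Real.log_rpow htp, Real.log_mul (by norm_num) (by linarith)] at h1
    linarith
  have hly : (1 / 2 + κ₀) * L - 1 ≤ Real.log y := by
    have h1 := Real.log_le_log (by positivity) hyge
    rw [Real.log_rpow htp, Real.log_mul (by norm_num) (by linarith)] at h1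
    linarith
  have hlDy : Real.log D ≤ Real.log y := Real.log_le_log (by linarith) (by exact_mod_cast hDy)
  have hlD4 : L / 4 ≤ Real.log D := by
    have : (1 / 2 - 1 / 32) * L ≤ (1 / 2 - κ) * L := mul_le_mul_of_nonneg_right (by linarith) hL.le
    linarith
  -- the pieces
  have e1 := hbv t ht0 D hD1 hDt1 hDt hDt2
  have e2 := hmid κ₀ hκ0 hκ4 t D y (by omega) hD1 hDy hDge' hyle
  have e3 := hT1 t ht1
  have e4 := count_bad t D y hD1 hDy
  rw [← hLdef] at e1 e2 e3 e4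
  set π : ℝ := ((PP t).card : ℝ) with hπ
  have hπ0 : 0 ≤ π := Nat.cast_nonneg _
  set A := ∑ q ∈ (Ioc D y).filter (fun q => q.Prime), ((P1 t q).card : ℝ) with hA
  have htL : t / L ≤ 2 * π := by
    rw [div_le_iff₀ hL]
    linarith
  have hA0 : 0 ≤ A := Finset.sum_nonneg (fun _ _ => Nat.cast_nonneg _)
  have hAle : A ≤ π / 8 := by
    have h1 : Real.log D * A ≤ C2 * (κ₀ * t + t / L) := by
      refine le_trans ?_ e2
      rw [hA, Finset.mul_sum]
      apply Finset.sum_le_sum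
      intro q hq
      rw [mem_filter, mem_Ioc] at hq
      apply mul_le_mul_of_nonneg_right _ (Nat.cast_nonneg _)
      exact Real.log_le_log (by linarith) (by exact_mod_cast hq.1.1.le)
    have h2 : L / 4 * A ≤ C2 * (κ₀ * t + t / L) :=
      (mul_le_mul_of_nonneg_right hlD4 hA0).trans h1
    have h3 : C2 * (κ₀ * t + t / L) ≤ C2 * (κ₀ * (2 * π * L) + 2 * π) := by
      apply mul_le_mul_of_nonneg_left _ hC2.le
      apply add_le_add _ htL
      apply mul_le_mul_of_nonneg_left _ hκ0.le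
      linarith
    have h4 : C2 * (κ₀ * (2 * π * L) + 2 * π) ≤ L / 4 * (π / 8) := by
      have h5 : C2 * (κ₀ * (2 * π * L)) ≤ L * π / 64 := by
        have := mul_le_mul_of_nonneg_right hκC (mul_nonneg hπ0 hL.le)
        have e5 : C2 * (κ₀ * (2 * π * L)) = (8 * C2 * κ₀ * (π * L)) / 4 := by ring
        rw [e5]
        linarith
      have h6 : C2 * (2 * π) ≤ L * π / 64 := by
        have := mul_le_mul_of_nonneg_right hl1 hπ0
        linarith
      rw [mul_add]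
      linarith
    have h5 : L / 4 * A ≤ L / 4 * (π / 8) := h2.trans (h3.trans h4)
    exact le_of_mul_le_mul_left h5 (by positivity)
  by_contra hcon
  push Not at hcon
  set b : ℝ := ((bad t D).card : ℝ) with hb
  have hπpos : 0 < π := by
    rcases hπ0.lt_or_eq with h | h
    · exact h
    · exfalso
      rw [← h] at e3
      linarith
  -- the final contradiction
  have h1 : (1 - κ) * π * Real.log D ≤ b * Real.log D :=
    mul_le_mul_of_nonneg_right hcon.le (by linarith)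
  have h2 : ((1 - κ) * π - π / 8) * (Real.log y - Real.log D) ≤ (b - A) * (Real.log y - Real.log D) :=
    mul_le_mul_of_nonneg_right (by linarith) (by linarith)
  have h3 : π * ((7 / 8 - κ) * Real.log y + 9 / 8 * Real.log D - C1 - 2) ≤ π * L := by
    have h4 : π * ((7 / 8 - κ) * Real.log y + 9 / 8 * Real.log D - C1 - 2) =
        (1 - κ) * π * Real.log D + ((1 - κ) * π - π / 8) * (Real.log y - Real.log D) +
        (π * (Real.log D - C1) - 2 * π) := by ring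
    rw [h4]
    linarith
  have h4 := le_of_mul_le_mul_left h3 hπpos
  have h5 : (7 / 8 - κ) * ((1 / 2 + κ₀) * L - 1) ≤ (7 / 8 - κ) * Real.log y :=
    mul_le_mul_of_nonneg_left hly (by linarith)
  have h6 : κ₀ = 8 * κ := by rw [hκdef]; ring
  rw [h6] at h5
  have h7 : (C1 + 5) ≤ κ * L := by
    rw [div_le_iff₀ hκ] at hl2
    linarith
  have h8 : κ * (κ * L) ≤ 1 / 32 * (κ * L) := mul_le_mul_of_nonneg_right hκ32 (by positivity)
  have h9 : (7 / 8 - κ) * ((1 / 2 + 8 * κ) * L - 1) =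
      7 / 16 * L + 13 / 2 * (κ * L) - 8 * (κ * (κ * L)) - 7 / 8 + κ := by ring
  have h10 : (1 / 2 - κ) * L - 1 = 1 / 2 * L - κ * L - 1 := by ring
  rw [h9] at h5
  rw [h10] at hlD
  linarith only [h4, h5, h7, h8, hlD, hC1, hκ]

end Pool.Agent.V7H10.DR
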