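import Pool.Agent.V7H10.DR.NT2

/-!
Many primes `p ≤ t` such that all prime powers dividing `p - 1` are at most `t ^ (1/2 - κ)`.
-/

set_option autoImplicit false

namespace Pool.Agent.V7H10.DR

open Finset Filter Pool.Agent.TH76.LehP

/-- the primes `p ≤ t` with a large square dividing `p - 1` -/
lemma count_sq (t m0 : ℕ) (hm : 1 ≤ m0) (hmt : m0 ≤ t) :
    ((((Ioc m0 t).biUnion (fun m => P1 t (m ^ 2))).card : ℕ) : ℝ) ≤ t / m0 := by
  have h1 : ((((Ioc m0 t).biUnion (fun m => P1 t (m ^ 2))).card : ℕ) : ℝ) ≤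
      ∑ m ∈ Ioc m0 t, ((P1 t (m ^ 2)).card : ℝ) := by
    rw [← Nat.cast_sum, Nat.cast_le]
    exact card_biUnion_le
  have hm0 : (0 : ℝ) < m0 := by exact_mod_cast hm
  refine h1.trans ?_
  have h2 : ∀ m ∈ Ioc m0 t, ((P1 t (m ^ 2)).card : ℝ) ≤ t * ((m : ℝ) ^ 2)⁻¹ := by
    intro m hmm
    rw [mem_Ioc] at hmm
    have := P1_card_le t (m ^ 2) (Nat.one_le_pow _ _ (by omega))
    push_cast at this
    rwa [div_eq_mul_inv] at this
  refine (Finset.sum_le_sum h2).trans ?_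
  rw [← Finset.mul_sum, div_eq_mul_inv]
  apply mul_le_mul_of_nonneg_left _ (Nat.cast_nonneg _)
  have h3 := sum_Ioc_inv_sq_le_sub (α := ℝ) (by omega : m0 ≠ 0) hmt
  have h4 : (0 : ℝ) ≤ (t : ℝ)⁻¹ := by positivity
  linarith

theorem prime_sets : ∃ κ : ℝ, 0 < κ ∧ κ ≤ 1 / 32 ∧ ∃ T : ℕ, ∀ t : ℕ, T ≤ t → ∃ P : Finset ℕ,
    (∀ p ∈ P, p.Prime ∧ ∀ q e : ℕ, q.Prime → q ^ e ∣ p - 1 → q ^ e ≤ ⌊(t : ℝ) ^ (1 / 2 - κ)⌋₊) ∧
    (∀ p ∈ P, (t : ℝ) ^ (1 - κ / 4) < p ∧ p ≤ t) ∧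
    (t : ℝ) ^ (1 - κ / 2) ≤ P.card ∧ (P.card : ℝ) ≤ 2 * (t : ℝ) ^ (1 - κ / 2) := by
  obtain ⟨κ, hκ, hκ32, T0, hgood⟩ := many_good
  obtain ⟨T1, hT1⟩ := cheb_lower
  have hev : ∀ᶠ t : ℕ in atTop, T0 ≤ t ∧ T1 ≤ t ∧ 256 ≤ t ∧
      14 / κ ≤ Real.log t ∧ Real.log t ^ 2 ≤ (t : ℝ) ^ (κ / 4) ∧ (2 : ℝ) ≤ (t : ℝ) ^ (1 / 10 : ℝ) := by
    filter_upwards [eventually_ge_atTop T0, eventually_ge_atTop T1, eventually_ge_atTop 256,
      ev_log (14 / κ), ev_logpow 2 (κ / 4) (by linarith), ev_rpow 2 (1 / 10) (by norm_num)]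
      with t h1 h2 h3 h4 h5 h6
    exact ⟨h1, h2, h3, h4, h5, h6⟩
  obtain ⟨T, hT⟩ := eventually_atTop.mp hev
  refine ⟨κ, hκ, hκ32, T, fun t htT => ?_⟩
  obtain ⟨ht0, ht1, ht2, hl1, hl2, hl3⟩ := hT t htT
  have ht' : (256 : ℝ) ≤ t := by exact_mod_cast ht2
  have htp : (0 : ℝ) < t := by linarith
  have ht1' : (1 : ℝ) ≤ t := by linarith
  have hL14 : 0 < 14 / κ := by positivity
  have hL : 0 < Real.log t := by linarith
  set L := Real.log t with hLdef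
  set Z : ℕ := ⌊(t : ℝ) ^ (1 / 2 - κ)⌋₊ with hZ
  set m0 : ℕ := ⌊(t : ℝ) ^ (1 / 10 : ℝ)⌋₊ with hm0
  set K : ℕ := ⌊(t : ℝ) ^ (1 - κ / 4)⌋₊ with hK
  have hm01 : 1 ≤ m0 := by
    apply Nat.le_floor
    push_cast
    linarith
  have hm0le : (m0 : ℝ) ≤ (t : ℝ) ^ (1 / 10 : ℝ) := Nat.floor_le (by positivity)
  have hm0ge : (t : ℝ) ^ (1 / 10 : ℝ) ≤ 2 * m0 := by
    have h1 : (t : ℝ) ^ (1 / 10 : ℝ) < (m0 : ℝ) + 1 := Nat.lt_floor_add_one _
    have h2 : (1 : ℝ) ≤ m0 := by exact_mod_cast hm01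
    linarith
  have hm0t : m0 ≤ t := by
    have h1 : (t : ℝ) ^ (1 / 10 : ℝ) ≤ (t : ℝ) ^ (1 : ℝ) :=
      Real.rpow_le_rpow_of_exponent_le ht1' (by norm_num)
    rw [Real.rpow_one] at h1
    exact_mod_cast hm0le.trans h1
  have hm0Z : m0 ^ 3 ≤ Z := by
    apply Nat.le_floor
    push_cast
    calc (m0 : ℝ) ^ 3 ≤ ((t : ℝ) ^ (1 / 10 : ℝ)) ^ 3 := pow_le_pow_left₀ (by positivity) hm0le 3
      _ = (t : ℝ) ^ (3 / 10 : ℝ) := by
          rw [← Real.rpow_natCast, ← Real.rpow_mul htp.le]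
          norm_num
      _ ≤ (t : ℝ) ^ (1 / 2 - κ) := Real.rpow_le_rpow_of_exponent_le ht1' (by linarith)
  have hZ1 : 1 ≤ Z := le_trans (Nat.one_le_pow _ _ hm01) hm0Z
  set Sq := (Ioc m0 t).biUnion (fun m => P1 t (m ^ 2)) with hSq
  set G : Finset ℕ := PP t \ (bad t Z ∪ Sq ∪ Icc 1 K) with hG
  -- the size of `G`
  have hX0 : 0 ≤ (t : ℝ) ^ (1 - κ / 4) := by positivity
  have hGcard : ((PP t).card : ℝ) ≤ G.card + ((1 - κ) * (PP t).card + 2 * (t : ℝ) ^ (1 - κ / 4) +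
      (t : ℝ) ^ (1 - κ / 4)) := by
    have h1 : (PP t).card ≤ G.card + (bad t Z ∪ Sq ∪ Icc 1 K).card := by
      have h1a : PP t ⊆ G ∪ (bad t Z ∪ Sq ∪ Icc 1 K) := by
        intro p hp
        by_cases h : p ∈ bad t Z ∪ Sq ∪ Icc 1 K
        · exact Finset.mem_union_right _ h
        · exact mem_union_left _ (Finset.mem_sdiff.2 ⟨hp, h⟩)
      exact (card_le_card h1a).trans (card_union_le _ _)
    have h2 : (bad t Z ∪ Sq ∪ Icc 1 K).card ≤ (bad t Z).card + Sq.card + K := by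
      refine (card_union_le _ _).trans ?_
      rw [Nat.card_Icc, Nat.add_sub_cancel]
      exact Nat.add_le_add_right (card_union_le _ _) _
    have h3 : ((PP t).card : ℝ) ≤ G.card + ((bad t Z).card + Sq.card + K) := by
      exact_mod_cast h1.trans (Nat.add_le_add_left h2 _)
    have h4 := hgood t ht0
    rw [← hZ] at h4
    have h5 : (Sq.card : ℝ) ≤ 2 * (t : ℝ) ^ (1 - κ / 4) := by
      refine (count_sq t m0 hm01 hm0t).trans ?_
      have hm0pos : (0 : ℝ) < m0 := by exact_mod_cast hm01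
      rw [div_le_iff₀ hm0pos]
      have h6 : (t : ℝ) = (t : ℝ) ^ (9 / 10 : ℝ) * (t : ℝ) ^ (1 / 10 : ℝ) := by
        rw [← Real.rpow_add htp]; norm_num
      have h7 : (t : ℝ) ^ (9 / 10 : ℝ) ≤ (t : ℝ) ^ (1 - κ / 4) :=
        Real.rpow_le_rpow_of_exponent_le ht1' (by linarith)
      calc (t : ℝ) = (t : ℝ) ^ (9 / 10 : ℝ) * (t : ℝ) ^ (1 / 10 : ℝ) := h6
        _ ≤ (t : ℝ) ^ (1 - κ / 4) * (2 * m0) := mul_le_mul h7 hm0ge (by positivity) hX0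
        _ = 2 * (t : ℝ) ^ (1 - κ / 4) * m0 := by ring
    have h6 : (K : ℝ) ≤ (t : ℝ) ^ (1 - κ / 4) := Nat.floor_le hX0
    linarith
  have hpi := hT1 t ht1
  rw [← hLdef] at hpi
  have hXhalf : (t : ℝ) ^ (1 - κ / 2) ≤ (t : ℝ) ^ (1 - κ / 4) :=
    Real.rpow_le_rpow_of_exponent_le ht1' (by linarith)
  have hXone : (1 : ℝ) ≤ (t : ℝ) ^ (1 - κ / 2) := Real.one_le_rpow ht1' (by linarith)
  have hbig : 5 * (t : ℝ) ^ (1 - κ / 4) ≤ κ * (PP t).card := by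
    have h1 : (t : ℝ) = (t : ℝ) ^ (1 - κ / 4) * (t : ℝ) ^ (κ / 4) := by
      rw [← Real.rpow_add htp]; norm_num
    have h2 : 14 ≤ κ * L := by
      rw [div_le_iff₀ hκ] at hl1
      linarith
    have h3 : (t : ℝ) ^ (1 - κ / 4) * L ^ 2 ≤ t := by
      calc (t : ℝ) ^ (1 - κ / 4) * L ^ 2 ≤ (t : ℝ) ^ (1 - κ / 4) * (t : ℝ) ^ (κ / 4) :=
            mul_le_mul_of_nonneg_left hl2 hX0
        _ = t := h1.symm
    have h4 : 5 * (t : ℝ) ^ (1 - κ / 4) * L ≤ κ * (PP t).card * L := by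
      calc 5 * (t : ℝ) ^ (1 - κ / 4) * L ≤ (κ * L / 2) * ((t : ℝ) ^ (1 - κ / 4) * L) := by
            have : 0 ≤ (t : ℝ) ^ (1 - κ / 4) * L := by positivity
            nlinarith
        _ = κ / 2 * ((t : ℝ) ^ (1 - κ / 4) * L ^ 2) := by ring
        _ ≤ κ / 2 * t := mul_le_mul_of_nonneg_left h3 (by positivity)
        _ = κ * (1 / 2 * t) := by ring
        _ ≤ κ * ((PP t).card * L) := mul_le_mul_of_nonneg_left hpi hκ.le
        _ = κ * (PP t).card * L := by ring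
    exact le_of_mul_le_mul_right h4 hL
  have hGbig : 2 * (t : ℝ) ^ (1 - κ / 2) ≤ G.card := by linarith
  -- the selection
  set n : ℕ := ⌈(t : ℝ) ^ (1 - κ / 2)⌉₊ with hn
  have hn1 : (t : ℝ) ^ (1 - κ / 2) ≤ n := Nat.le_ceil _
  have hn2 : (n : ℝ) ≤ 2 * (t : ℝ) ^ (1 - κ / 2) := by
    have := Nat.ceil_lt_add_one (by positivity : 0 ≤ (t : ℝ) ^ (1 - κ / 2))
    linarith
  have hnG : n ≤ G.card := by exact_mod_cast hn2.trans hGbig
  obtain ⟨P, hPG, hPn⟩ := exists_subset_card_eq hnG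
  refine ⟨P, ?_, ?_, by rw [hPn]; exact hn1, by rw [hPn]; exact hn2⟩
  · intro p hp
    have hpG := hPG hp
    rw [hG, Finset.mem_sdiff, mem_union, mem_union, not_or, not_or] at hpG
    obtain ⟨hpP, ⟨hp1, hp2⟩, hp3⟩ := hpG
    have hpP' := mem_PP.1 hpP
    have hp2' := hpP'.2.two_le
    refine ⟨hpP'.2, fun q e hq hqe => ?_⟩
    by_contra hcon
    push Not at hcon
    rcases Nat.eq_zero_or_pos e with he0 | he0
    · rw [he0, pow_zero] at hcon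
      omega
    have hqZ : q ≤ Z := by
      by_contra h
      push Not at h
      apply hp1
      rw [mem_bad]
      exact ⟨hpP, q, hq, dvd_trans (dvd_pow_self q (by omega)) hqe, h⟩
    have he2 : 2 ≤ e := by
      by_contra h
      have : e = 1 := by omega
      rw [this, pow_one] at hcon
      omega
    apply hp2
    rw [hSq, mem_biUnion]
    have hsqd : (q ^ (e / 2)) ^ 2 ∣ p - 1 := by
      rw [← pow_mul]
      exact dvd_trans (pow_dvd_pow q (by omega)) hqe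
    have hcube : m0 ^ 3 < (q ^ (e / 2)) ^ 3 := by
      refine lt_of_le_of_lt hm0Z (lt_of_lt_of_le hcon ?_)
      rw [← pow_mul]
      exact Nat.pow_le_pow_right hq.pos (by omega)
    have hm : m0 < q ^ (e / 2) := lt_of_pow_lt_pow_left₀ 3 (by positivity) hcube
    refine ⟨q ^ (e / 2), ?_, ?_⟩
    · rw [mem_Ioc]
      refine ⟨hm, ?_⟩
      have h1 := Nat.le_of_dvd (by omega) hsqd
      have h2 : q ^ (e / 2) ≤ (q ^ (e / 2)) ^ 2 := Nat.le_self_pow (by norm_num) _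
      omega
    · rw [mem_P1]
      exact ⟨hpP'.1, hpP'.2, hsqd⟩
  · intro p hp
    have hpG := hPG hp
    rw [hG, Finset.mem_sdiff, mem_union, mem_union, not_or, not_or] at hpG
    obtain ⟨hpP, ⟨hp1, hp2⟩, hp3⟩ := hpG
    have hpP' := mem_PP.1 hpP
    rw [mem_Icc, not_and, not_le] at hp3
    have h1 := hp3 hpP'.2.one_lt.le
    exact ⟨Nat.lt_of_floor_lt h1, hpP'.1⟩

end Pool.Agent.V7H10.DR
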