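import Pool.Agent.V7H10.DR.Dec

/-!
Tensor products of families of matrices, and the tensor product of elementary row operations.
-/

set_option autoImplicit false

namespace Pool.Agent.V7H10.DR

open Finset Classical

variable {F : Type} [Field F]

/-- the tensor product of a family of square matrices -/
def PK {J : Type} [Fintype J] {ι : J → Type} (X : ∀ j, Matrix (ι j) (ι j) F) :
    Matrix (∀ j, ι j) (∀ j, ι j) F :=
  Matrix.of fun x y => ∏ j, X j (x j) (y j)

section

variable {J : Type} [Fintype J] {ι : J → Type} [∀ j, Fintype (ι j)]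

lemma PK_mul (X Y : ∀ j, Matrix (ι j) (ι j) F) : PK X * PK Y = PK (fun j => X j * Y j) := by
  ext x y
  unfold PK
  rw [Matrix.mul_apply]
  simp only [Matrix.of_apply, Matrix.mul_apply]
  rw [Finset.prod_univ_sum, Fintype.piFinset_univ]
  apply Finset.sum_congr rfl
  intro z _
  rw [Finset.prod_mul_distrib]

lemma PK_one [DecidableEq (∀ j, ι j)] [∀ j, DecidableEq (ι j)] :
    PK (fun j => (1 : Matrix (ι j) (ι j) F)) = 1 := by
  ext x y
  unfold PK
  simp only [Matrix.of_apply, Matrix.one_apply]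
  rw [Finset.prod_ite_zero]
  simp only [Finset.mem_univ, true_implies, Finset.prod_const_one, funext_iff]

/-- number of coordinates in `K` at which `x` equals `a` -/
noncomputable def al (K : Finset J) (a x : ∀ j, ι j) : ℕ := (K.filter (fun j => x j = a j)).card

/-- number of coordinates in `K` at which `x` differs from `y` -/
noncomputable def hd (K : Finset J) (x y : ∀ j, ι j) : ℕ := (K.filter (fun j => x j ≠ y j)).card

/-- size of the whole index set -/
noncomputable def AA (ι : J → Type) [∀ j, Fintype (ι j)] : ℝ := ∏ j, (Fintype.card (ι j) : ℝ)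

lemma AA_nonneg : 0 ≤ AA ι := Finset.prod_nonneg (fun _ _ => Nat.cast_nonneg _)

lemma AA_eq : AA ι = (Fintype.card (∀ j, ι j) : ℝ) := by
  unfold AA
  rw [Fintype.card_pi]
  push_cast
  rfl

/-- the moment generating function -/
lemma mgf (K : Finset J) (d : ℕ) (hd : 1 ≤ d) (hK : ∀ j ∈ K, Fintype.card (ι j) = d) (a : ∀ j, ι j)
    (u : ℝ) :
    ∑ x : (∀ j, ι j), Real.exp (u * al K a x) ≤ AA ι * Real.exp ((Real.exp u - 1) * K.card / d) := by
  have hd0 : (0 : ℝ) < d := by exact_mod_cast hd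
  have h1 : ∀ x : (∀ j, ι j), Real.exp (u * al K a x) =
      ∏ j, (if j ∈ K ∧ x j = a j then Real.exp u else 1) := by
    intro x
    rw [Finset.prod_ite, Finset.prod_const_one, mul_one, Finset.prod_const, ← Real.exp_nat_mul, mul_comm]
    congr 3
    unfold al
    congr 1
    ext j
    simp
  simp_rw [h1]
  have h2 : ∑ x : (∀ j, ι j), ∏ j, (if j ∈ K ∧ x j = a j then Real.exp u else 1) =
      ∏ j, ∑ v : ι j, (if j ∈ K ∧ v = a j then Real.exp u else 1) := by
    rw [Finset.prod_univ_sum, Fintype.piFinset_univ]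
  rw [h2]
  have h3 : ∀ j, ∑ v : ι j, (if j ∈ K ∧ v = a j then Real.exp u else 1) ≤
      (Fintype.card (ι j) : ℝ) * (if j ∈ K then Real.exp ((Real.exp u - 1) / d) else 1) := by
    intro j
    by_cases hj : j ∈ K
    · simp only [hj, true_and, if_true]
      have h4 : ∑ v : ι j, (if v = a j then Real.exp u else (1 : ℝ)) = (d : ℝ) + (Real.exp u - 1) := by
        have h5 : ∀ v : ι j, (if v = a j then Real.exp u else (1 : ℝ)) =
            1 + (if v = a j then (Real.exp u - 1) else 0) := by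
          intro v
          split_ifs <;> ring
        simp_rw [h5]
        rw [Finset.sum_add_distrib, Finset.sum_ite_eq']
        simp [hK j hj]
      rw [h4, hK j hj]
      have h6 := Real.add_one_le_exp ((Real.exp u - 1) / d)
      calc (d : ℝ) + (Real.exp u - 1) = d * ((Real.exp u - 1) / d + 1) := by
            field_simp
            ring
        _ ≤ _ := mul_le_mul_of_nonneg_left h6 hd0.le
    · simp [hj]
  refine (Finset.prod_le_prod (fun j _ => Finset.sum_nonneg (fun v _ => ?_)) (fun j _ => h3 j)).trans ?_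
  · split_ifs
    · exact (Real.exp_pos _).le
    · norm_num
  · rw [Finset.prod_mul_distrib, Finset.prod_ite_mem, Finset.univ_inter, Finset.prod_const,
      ← Real.exp_nat_mul]
    apply le_of_eq
    unfold AA
    congr 2
    ring

/-- the tails -/
lemma tail_up (K : Finset J) (d : ℕ) (hd : 1 ≤ d) (hK : ∀ j ∈ K, Fintype.card (ι j) = d) (a : ∀ j, ι j)
    (θ : ℝ) (hθ : 0 < θ) (hθ2 : θ ≤ 1 / 2) :
    ((univ.filter (fun x : (∀ j, ι j) => (1 + θ) * K.card / d < al K a x)).card : ℝ) ≤
      AA ι * Real.exp (-(θ ^ 2 * K.card / (4 * d))) := by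
  have hd0 : (0 : ℝ) < d := by exact_mod_cast hd
  set n : ℝ := (K.card : ℝ) with hn
  have hn0 : 0 ≤ n := Nat.cast_nonneg _
  have h1 := mgf K d hd hK a (θ / 2)
  have h2 : ((univ.filter (fun x : (∀ j, ι j) => (1 + θ) * n / d < al K a x)).card : ℝ) *
      Real.exp (θ / 2 * ((1 + θ) * n / d)) ≤ ∑ x : (∀ j, ι j), Real.exp (θ / 2 * al K a x) := by
    rw [← nsmul_eq_mul, ← Finset.sum_const]
    calc _ ≤ ∑ x ∈ univ.filter (fun x : (∀ j, ι j) => (1 + θ) * n / d < al K a x),
          Real.exp (θ / 2 * al K a x) := by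
          apply Finset.sum_le_sum
          intro x hx
          rw [mem_filter] at hx
          apply Real.exp_le_exp.2
          exact mul_le_mul_of_nonneg_left hx.2.le (by positivity)
      _ ≤ _ := Finset.sum_le_sum_of_subset_of_nonneg (filter_subset _ _)
          (fun _ _ _ => (Real.exp_pos _).le)
  have h3 := h2.trans h1
  have h4 : |Real.exp (θ / 2) - 1 - θ / 2| ≤ (θ / 2) ^ 2 :=
    Real.abs_exp_sub_one_sub_id_le (by rw [abs_of_pos (by positivity)]; linarith)
  have h5 := (abs_le.1 h4).2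
  rw [← hn, ← le_div_iff₀ (Real.exp_pos _), mul_div_assoc (AA ι), ← Real.exp_sub] at h3
  refine h3.trans (mul_le_mul_of_nonneg_left (Real.exp_le_exp.2 ?_) AA_nonneg)
  have h6 : (Real.exp (θ / 2) - 1) * n / d - θ / 2 * ((1 + θ) * n / d) =
      (Real.exp (θ / 2) - 1 - θ / 2 - θ ^ 2 / 2) * (n / d) := by
    field_simp
    ring
  have h7 : -(θ ^ 2 * n / (4 * d)) = -(θ ^ 2 / 4) * (n / d) := by
    field_simp
  rw [h6, h7]
  apply mul_le_mul_of_nonneg_right _ (by positivity)
  nlinarith

lemma tail_low (K : Finset J) (d : ℕ) (hd : 1 ≤ d) (hK : ∀ j ∈ K, Fintype.card (ι j) = d) (a : ∀ j, ι j)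
    (θ : ℝ) (hθ : 0 < θ) (hθ2 : θ ≤ 1 / 2) :
    ((univ.filter (fun x : (∀ j, ι j) => (al K a x : ℝ) < (1 - θ) * K.card / d)).card : ℝ) ≤
      AA ι * Real.exp (-(θ ^ 2 * K.card / (4 * d))) := by
  have hd0 : (0 : ℝ) < d := by exact_mod_cast hd
  set n : ℝ := (K.card : ℝ) with hn
  have hn0 : 0 ≤ n := Nat.cast_nonneg _
  have h1 := mgf K d hd hK a (-(θ / 2))
  have h2 : ((univ.filter (fun x : (∀ j, ι j) => (al K a x : ℝ) < (1 - θ) * n / d)).card : ℝ) *
      Real.exp (-(θ / 2) * ((1 - θ) * n / d)) ≤ ∑ x : (∀ j, ι j), Real.exp (-(θ / 2) * al K a x) := by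
    rw [← nsmul_eq_mul, ← Finset.sum_const]
    calc _ ≤ ∑ x ∈ univ.filter (fun x : (∀ j, ι j) => (al K a x : ℝ) < (1 - θ) * n / d),
          Real.exp (-(θ / 2) * al K a x) := by
          apply Finset.sum_le_sum
          intro x hx
          rw [mem_filter] at hx
          apply Real.exp_le_exp.2
          exact mul_le_mul_of_nonpos_left hx.2.le (by linarith)
      _ ≤ _ := Finset.sum_le_sum_of_subset_of_nonneg (filter_subset _ _)
          (fun _ _ _ => (Real.exp_pos _).le)
  have h3 := h2.trans h1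
  have h4 : |Real.exp (-(θ / 2)) - 1 - -(θ / 2)| ≤ (-(θ / 2)) ^ 2 :=
    Real.abs_exp_sub_one_sub_id_le (by rw [abs_neg, abs_of_pos (by positivity)]; linarith)
  have h5 := (abs_le.1 h4).2
  rw [← hn, ← le_div_iff₀ (Real.exp_pos _), mul_div_assoc (AA ι), ← Real.exp_sub] at h3
  refine h3.trans (mul_le_mul_of_nonneg_left (Real.exp_le_exp.2 ?_) AA_nonneg)
  have h6 : (Real.exp (-(θ / 2)) - 1) * n / d - -(θ / 2) * ((1 - θ) * n / d) =
      (Real.exp (-(θ / 2)) - 1 - -(θ / 2) - θ ^ 2 / 2) * (n / d) := by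
    field_simp
    ring
  have h7 : -(θ ^ 2 * n / (4 * d)) = -(θ ^ 2 / 4) * (n / d) := by
    field_simp
  rw [h6, h7]
  apply mul_le_mul_of_nonneg_right _ (by positivity)
  nlinarith

/-- the number of `y` close to `x` -/
lemma ball_card (K : Finset J) (d : ℕ) (hd2 : 2 ≤ d) (hK : ∀ j ∈ K, Fintype.card (ι j) = d) (x : ∀ j, ι j)
    (θ : ℝ) (hθ : 0 < θ) (hθ2 : θ ≤ 1 / 2) :
    ((univ.filter (fun y : (∀ j, ι j) => (∀ j, j ∉ K → y j = x j) ∧
      (hd K x y : ℝ) ≤ 2 * θ * K.card / d)).card : ℝ) ≤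
      Real.exp (2 * θ * K.card / d * (1 + Real.log (d ^ 2 / (2 * θ)))) := by
  have hd0 : (0 : ℝ) < d := by exact_mod_cast (by omega : 0 < d)
  have hd2' : (2 : ℝ) ≤ d := by exact_mod_cast hd2
  set n : ℝ := (K.card : ℝ) with hn
  have hn0 : 0 ≤ n := Nat.cast_nonneg _
  set m : ℝ := 2 * θ * n / d with hm
  set μ : ℝ := 2 * θ / d ^ 2 with hμ
  have hμ0 : 0 < μ := by positivity
  have hμ1 : μ ≤ 1 := by
    rw [hμ, div_le_one (by positivity)]
    nlinarith
  set B := univ.filter (fun y : (∀ j, ι j) => (∀ j, j ∉ K → y j = x j) ∧ (hd K x y : ℝ) ≤ m) with hB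
  have h1 : ∀ y ∈ B, Real.exp (-(m * Real.log (1 / μ))) ≤
      ∏ j, (if j ∈ K then (if y j = x j then 1 else μ) else (if y j = x j then 1 else 0)) := by
    intro y hy
    rw [hB, mem_filter] at hy
    have h2 : ∏ j, (if j ∈ K then (if y j = x j then 1 else μ) else (if y j = x j then 1 else 0)) =
        μ ^ (hd K x y) := by
      have h3 : ∀ j, (if j ∈ K then (if y j = x j then (1:ℝ) else μ) else
          (if y j = x j then 1 else 0)) = if j ∈ K ∧ x j ≠ y j then μ else 1 := by
        intro j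
        by_cases hj : j ∈ K
        · by_cases hxy : y j = x j
          · simp [hj, hxy]
          · simp [hj, hxy, Ne.symm hxy]
        · simp [hj, hy.2.1 j hj]
      simp_rw [h3]
      rw [Finset.prod_ite, Finset.prod_const_one, mul_one, Finset.prod_const]
      congr 1
      unfold hd
      congr 1
      ext j
      simp
    rw [h2, one_div, Real.log_inv, mul_neg, neg_neg]
    have h4 : Real.exp (m * Real.log μ) ≤ Real.exp ((hd K x y : ℝ) * Real.log μ) :=
      Real.exp_le_exp.2 (mul_le_mul_of_nonpos_right hy.2.2 (Real.log_nonpos hμ0.le hμ1))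
    rwa [Real.exp_nat_mul, Real.exp_log hμ0] at h4
  have h5 : ∑ y : (∀ j, ι j), ∏ j, (if j ∈ K then (if y j = x j then (1:ℝ) else μ) else
      (if y j = x j then 1 else 0)) ≤ Real.exp (2 * θ * n / d) := by
    have h6 : ∑ y : (∀ j, ι j), ∏ j, (if j ∈ K then (if y j = x j then (1:ℝ) else μ) else
        (if y j = x j then 1 else 0)) =
        ∏ j, ∑ v : ι j, (if j ∈ K then (if v = x j then (1:ℝ) else μ) else
        (if v = x j then 1 else 0)) := by
      rw [Finset.prod_univ_sum, Fintype.piFinset_univ]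
    rw [h6]
    have h7 : ∀ j, ∑ v : ι j, (if j ∈ K then (if v = x j then (1:ℝ) else μ) else
        (if v = x j then 1 else 0)) ≤ if j ∈ K then Real.exp (d * μ) else 1 := by
      intro j
      by_cases hj : j ∈ K
      · simp only [hj, if_true]
        calc ∑ v : ι j, (if v = x j then (1:ℝ) else μ) ≤ ∑ v : ι j, ((if v = x j then 1 else 0) + μ) := by
              apply Finset.sum_le_sum
              intro v _
              split_ifs <;> linarith
          _ = 1 + d * μ := by
              rw [Finset.sum_add_distrib, Finset.sum_ite_eq']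
              simp [hK j hj]
          _ ≤ _ := by
              have := Real.add_one_le_exp ((d : ℝ) * μ)
              linarith
      · simp [hj]
    refine (Finset.prod_le_prod (fun j _ => Finset.sum_nonneg (fun v _ => ?_)) (fun j _ => h7 j)).trans ?_
    · split_ifs <;> first | exact hμ0.le | norm_num
    · rw [Finset.prod_ite_mem, Finset.univ_inter, Finset.prod_const, ← Real.exp_nat_mul]
      apply le_of_eq
      congr 1
      rw [hμ, ← hn]
      field_simp
  have h8 : (B.card : ℝ) * Real.exp (-(m * Real.log (1 / μ))) ≤ Real.exp (2 * θ * n / d) := by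
    refine le_trans ?_ h5
    rw [← nsmul_eq_mul, ← Finset.sum_const]
    refine (Finset.sum_le_sum h1).trans ?_
    apply Finset.sum_le_sum_of_subset_of_nonneg (filter_subset _ _)
    intro y _ _
    apply Finset.prod_nonneg
    intro j _
    split_ifs <;> first | exact hμ0.le | norm_num
  rw [← le_div_iff₀ (Real.exp_pos _), ← Real.exp_sub] at h8
  refine h8.trans (le_of_eq ?_)
  congr 1
  have h9 : 1 / μ = d ^ 2 / (2 * θ) := by
    rw [hμ]
    field_simp
  rw [h9, ← hm]
  ring

/-- the tensor product of elementary row operations -/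
theorem rtype (K : Finset J) (d : ℕ) (hd2 : 2 ≤ d) (hK : ∀ j ∈ K, Fintype.card (ι j) = d)
    (a : ∀ j, ι j) (R : ∀ j, Matrix (ι j) (ι j) F) (hR1 : ∀ j, j ∉ K → ∀ x y, R j x y ≠ 0 → x = y)
    (hR2 : ∀ j ∈ K, ∀ x y, R j x y ≠ 0 → x = y ∨ x = a j) (θ : ℝ) (hθ : 0 < θ) (hθ2 : θ ≤ 1 / 2) :
    Dec (PK R) (2 * Real.exp (-(θ ^ 2 * K.card / (4 * d))) * AA ι)
      (Real.exp (2 * θ * K.card / d * (1 + Real.log (d ^ 2 / (2 * θ))))) := by
  have hd1 : 1 ≤ d := by omega
  have hd0 : (0 : ℝ) < d := by exact_mod_cast (by omega : 0 < d)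
  set n : ℝ := (K.card : ℝ) with hn
  -- the structure of the nonzero entries
  have key : ∀ x y : (∀ j, ι j), PK R x y ≠ 0 → (∀ j, j ∉ K → y j = x j) ∧
      (al K a x = al K a y + hd K x y) := by
    intro x y hxy
    have h1 : ∀ j, R j (x j) (y j) ≠ 0 := by
      intro j
      unfold PK at hxy
      rw [Matrix.of_apply] at hxy
      exact Finset.prod_ne_zero_iff.1 hxy j (mem_univ _)
    refine ⟨fun j hj => (hR1 j hj _ _ (h1 j)).symm, ?_⟩
    unfold al hd
    rw [← card_union_of_disjoint]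
    · congr 1
      ext j
      simp only [mem_filter, mem_union]
      constructor
      · rintro ⟨h2, h3⟩
        by_cases h4 : x j = y j
        · exact Or.inl ⟨h2, h4 ▸ h3⟩
        · exact Or.inr ⟨h2, h4⟩
      · rintro (⟨h2, h3⟩ | ⟨h2, h3⟩)
        · rcases hR2 j h2 _ _ (h1 j) with h4 | h4
          · exact ⟨h2, h4.trans h3⟩
          · exact ⟨h2, h4⟩
        · rcases hR2 j h2 _ _ (h1 j) with h4 | h4
          · exact absurd h4 h3
          · exact ⟨h2, h4⟩
    · rw [Finset.disjoint_left]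
      intro j h2 h3
      rw [mem_filter] at h2 h3
      rcases hR2 j h2.1 _ _ (h1 j) with h4 | h4
      · exact h3.2 h4
      · exact h3.2 (h4.trans h2.2.symm)
  set B : Finset (∀ j, ι j) := univ.filter (fun x => (1 + θ) * n / d < al K a x) with hB
  set C : Finset (∀ j, ι j) := univ.filter (fun x => (al K a x : ℝ) < (1 - θ) * n / d) with hC
  have hclose : ∀ x y : (∀ j, ι j), x ∉ B → y ∉ C → PK R x y ≠ 0 →
      (∀ j, j ∉ K → y j = x j) ∧ (hd K x y : ℝ) ≤ 2 * θ * n / d := by
    intro x y hx hy hxy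
    rw [hB, mem_filter, not_and, not_lt] at hx
    rw [hC, mem_filter, not_and, not_lt] at hy
    have h1 := hx (mem_univ _)
    have h2 := hy (mem_univ _)
    obtain ⟨h3, h4⟩ := key x y hxy
    refine ⟨h3, ?_⟩
    have h5 : (al K a x : ℝ) = al K a y + hd K x y := by exact_mod_cast h4
    have h6 : 2 * θ * n / d = (1 + θ) * n / d - (1 - θ) * n / d := by ring
    rw [h6]
    linarith
  have hsym : ∀ x y : (∀ j, ι j), hd K x y = hd K y x := by
    intro x y
    unfold hd
    congr 1
    ext j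
    simp only [mem_filter, ne_comm]
  refine (Dec.of_bad (PK R) B C
    (Real.exp (2 * θ * n / d * (1 + Real.log (d ^ 2 / (2 * θ))))) (Real.exp_pos _).le ?_ ?_).mono ?_ le_rfl
  · intro x hx
    refine ⟨_, ball_card K d hd2 hK x θ hθ hθ2, fun y hy hxy => ?_⟩
    rw [mem_filter]
    exact ⟨mem_univ _, hclose x y hx hy hxy⟩
  · intro y hy
    refine ⟨_, ball_card K d hd2 hK y θ hθ hθ2, fun x hx hxy => ?_⟩
    rw [mem_filter]
    obtain ⟨h1, h2⟩ := hclose x y hx hy hxy
    refine ⟨mem_univ _, fun j hj => (h1 j hj).symm, ?_⟩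
    rw [hsym]
    exact h2
  · have h1 := tail_up K d hd1 hK a θ hθ hθ2
    have h2 := tail_low K d hd1 hK a θ hθ hθ2
    rw [← hn] at h1 h2
    rw [hB, hC]
    linarith

end

end Pool.Agent.V7H10.DR
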