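import Pool.Agent.V7H10.DR.PK

/-!
Fourier matrices of cyclic groups as products of elementary row operations, and the tensor products of such matrices.
-/

set_option autoImplicit false

namespace Pool.Agent.V7H10.DR

open Finset Classical

variable {F : Type} [Field F]

/-- the Fourier matrix of `ℤ/d` -/
def FD (d : ℕ) (ζ : F) : Matrix (ZMod d) (ZMod d) F := Matrix.of fun x y => ζ ^ (x.val * y.val)

/-- the first `k` rows of the Fourier matrix and the other rows of the identity matrix -/
def HM (d : ℕ) (ζ : F) (k : ℕ) : Matrix (ZMod d) (ZMod d) F :=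
  Matrix.of fun x y => if x.val < k then ζ ^ (x.val * y.val) else if x = y then 1 else 0

lemma HM_zero (d : ℕ) (ζ : F) : HM d ζ 0 = 1 := by
  ext x y
  unfold HM
  rw [Matrix.of_apply, if_neg (Nat.not_lt_zero _), Matrix.one_apply]

lemma HM_top (d : ℕ) [NeZero d] (ζ : F) : HM d ζ d = FD d ζ := by
  ext x y
  unfold HM FD
  rw [Matrix.of_apply, Matrix.of_apply, if_pos (ZMod.val_lt x)]

lemma HM_inj (d : ℕ) [NeZero d] (ζ : F) (hζ : IsPrimitiveRoot ζ d) (k : ℕ) (hk : k ≤ d)
    (v : ZMod d → F) (hv : (HM d ζ k).mulVec v = 0) : v = 0 := by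
  have h1 : ∀ y : ZMod d, k ≤ y.val → v y = 0 := by
    intro y hy
    have := congrFun hv y
    unfold HM at this
    rw [Matrix.mulVec, dotProduct] at this
    simp only [Matrix.of_apply, if_neg (not_lt.2 hy), ite_mul, one_mul, zero_mul, Finset.sum_ite_eq,
      Finset.mem_univ, if_true, Pi.zero_apply] at this
    exact this
  set p : Polynomial F := ∑ y : ZMod d, Polynomial.C (v y) * Polynomial.X ^ y.val with hp
  have hcoef : ∀ y : ZMod d, p.coeff y.val = v y := by
    intro y
    rw [hp, Polynomial.finsetSum_coeff]
    simp only [Polynomial.coeff_C_mul_X_pow]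
    rw [Finset.sum_eq_single y]
    · simp
    · intro z _ hz
      rw [if_neg]
      intro h
      exact hz (ZMod.val_injective d h.symm)
    · intro h
      exact absurd (mem_univ _) h
  have hp0 : p = 0 := by
    apply Polynomial.eq_zero_of_degree_lt_of_eval_index_eq_zero (s := range k) (v := fun i => ζ ^ i)
    · intro i hi j hj hij
      rw [coe_range, Set.mem_Iio] at hi hj
      exact hζ.pow_inj (by omega) (by omega) hij
    · rw [card_range, Polynomial.degree_lt_iff_coeff_zero]
      intro m hm
      rw [hp, Polynomial.finsetSum_coeff]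
      apply Finset.sum_eq_zero
      intro y _
      rw [Polynomial.coeff_C_mul_X_pow]
      split_ifs with h
      · exact h1 y (by omega)
      · rfl
    · intro i hi
      rw [mem_range] at hi
      have hid : i < d := by omega
      have h2 := congrFun hv ((i : ℕ) : ZMod d)
      have hival : ((i : ℕ) : ZMod d).val = i := ZMod.val_cast_of_lt hid
      unfold HM at h2
      rw [Matrix.mulVec, dotProduct] at h2
      simp only [Matrix.of_apply, hival, if_pos hi, Pi.zero_apply] at h2
      rw [hp, Polynomial.eval_finsetSum, ← h2]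
      apply Finset.sum_congr rfl
      intro y _
      simp only [Polynomial.eval_mul, Polynomial.eval_C, Polynomial.eval_pow, Polynomial.eval_X]
      rw [← pow_mul, mul_comm]
  funext y
  rw [← hcoef y, hp0]
  simp

lemma HM_unit (d : ℕ) [NeZero d] (ζ : F) (hζ : IsPrimitiveRoot ζ d) (k : ℕ) (hk : k ≤ d) :
    IsUnit (HM d ζ k).det := by
  rw [← Matrix.isUnit_iff_isUnit_det]
  rw [← Matrix.mulVec_injective_iff_isUnit]
  rw [← Matrix.coe_mulVecLin, ← LinearMap.ker_eq_bot, LinearMap.ker_eq_bot']
  intro v hv
  exact HM_inj d ζ hζ k hk v hv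

/-- the `k`-th elementary row operation -/
noncomputable def RM (d : ℕ) [NeZero d] (ζ : F) (k : ℕ) : Matrix (ZMod d) (ZMod d) F :=
  HM d ζ (k + 1) * (HM d ζ k)⁻¹

lemma RM_mul (d : ℕ) [NeZero d] (ζ : F) (hζ : IsPrimitiveRoot ζ d) (k : ℕ) (hk : k < d) :
    RM d ζ k * HM d ζ k = HM d ζ (k + 1) := by
  unfold RM
  rw [Matrix.mul_assoc, Matrix.nonsing_inv_mul _ (HM_unit d ζ hζ k hk.le), Matrix.mul_one]

lemma RM_row (d : ℕ) [NeZero d] (ζ : F) (hζ : IsPrimitiveRoot ζ d) (k : ℕ) (hk : k < d)
    (x y : ZMod d) (h : RM d ζ k x y ≠ 0) : x = y ∨ x = (k : ZMod d) := by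
  by_contra hcon
  push Not at hcon
  have hx : x.val ≠ k := by
    intro h1
    apply hcon.2
    rw [← h1, ZMod.natCast_zmod_val]
  have h2 : ∀ z, HM d ζ (k + 1) x z = HM d ζ k x z := by
    intro z
    unfold HM
    rw [Matrix.of_apply, Matrix.of_apply]
    by_cases h3 : x.val < k
    · rw [if_pos h3, if_pos (by omega)]
    · rw [if_neg h3, if_neg (by omega)]
  apply h
  have h4 : RM d ζ k x y = (HM d ζ k * (HM d ζ k)⁻¹) x y := by
    unfold RM
    rw [Matrix.mul_apply, Matrix.mul_apply]
    apply Finset.sum_congr rfl
    intro z _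
    rw [h2]
  rw [h4, Matrix.mul_nonsing_inv _ (HM_unit d ζ hζ k hk.le), Matrix.one_apply_ne hcon.1]

section prod

variable {J : Type} [Fintype J]

/-- the tensor product of the Fourier matrices over the coordinates in a set `K` on which the size is `d` -/
theorem sparse_block (dd : J → ℕ) [∀ j, NeZero (dd j)] (ζ : J → F)
    (hζ : ∀ j, IsPrimitiveRoot (ζ j) (dd j)) (K : Finset J) (d : ℕ) (hd2 : 2 ≤ d)
    (hK : ∀ j, j ∈ K ↔ dd j = d) (θ : ℝ) (hθ : 0 < θ) (hθ2 : θ ≤ 1 / 2) :
    Dec (PK (fun j => if dd j = d then FD (dd j) (ζ j) else 1))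
      (2 * d * Real.exp (-(θ ^ 2 * K.card / (4 * d))) * AA (fun j => ZMod (dd j)))
      (Real.exp (2 * θ * K.card * (1 + Real.log (d ^ 2 / (2 * θ))))) := by
  have hd0 : (0 : ℝ) < d := by exact_mod_cast (by omega : 0 < d)
  set σ : ℝ := 2 * θ * K.card / d * (1 + Real.log (d ^ 2 / (2 * θ))) with hσ
  set ρ : ℝ := 2 * Real.exp (-(θ ^ 2 * K.card / (4 * d))) * AA (fun j => ZMod (dd j)) with hρ
  have step : ∀ k : ℕ, k ≤ d →
      Dec (PK (fun j => if dd j = d then HM (dd j) (ζ j) k else 1)) (k * ρ) (Real.exp (k * σ)) := by
    intro k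
    induction k with
    | zero =>
      intro _
      have h1 : (PK (fun j => if dd j = d then HM (dd j) (ζ j) 0 else 1)) =
          (1 : Matrix (∀ j, ZMod (dd j)) (∀ j, ZMod (dd j)) F) := by
        rw [← PK_one]
        congr 1
        funext j
        rw [HM_zero, ite_self]
      rw [h1]
      simp only [Nat.cast_zero, zero_mul, Real.exp_zero]
      apply Dec.of_sparse
      constructor
      · intro i
        have : (univ.filter (fun j => (1 : Matrix (∀ j, ZMod (dd j)) (∀ j, ZMod (dd j)) F) i j ≠ 0)).card
            ≤ 1 := by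
          rw [card_le_one]
          intro a ha b hb
          rw [mem_filter] at ha hb
          have h2 : i = a := by
            by_contra h3
            exact ha.2 (Matrix.one_apply_ne h3)
          have h4 : i = b := by
            by_contra h3
            exact hb.2 (Matrix.one_apply_ne h3)
          rw [← h2, ← h4]
        exact_mod_cast this
      · intro i
        have : (univ.filter (fun j => (1 : Matrix (∀ j, ZMod (dd j)) (∀ j, ZMod (dd j)) F) j i ≠ 0)).card
            ≤ 1 := by
          rw [card_le_one]
          intro a ha b hb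
          rw [mem_filter] at ha hb
          have h2 : a = i := by
            by_contra h3
            exact ha.2 (Matrix.one_apply_ne h3)
          have h4 : b = i := by
            by_contra h3
            exact hb.2 (Matrix.one_apply_ne h3)
          rw [h2, h4]
        exact_mod_cast this
    | succ k ih =>
      intro hk
      have h1 := ih (by omega)
      have h2 : Dec (PK (fun j => if dd j = d then RM (dd j) (ζ j) k else 1)) ρ (Real.exp σ) := by
        apply rtype K d hd2 (fun j hj => by rw [ZMod.card]; exact (hK j).1 hj) (fun j => ((k : ℕ) : ZMod (dd j)))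
          _ _ _ θ hθ hθ2
        · intro j hj x y hxy
          have hj' : ¬ dd j = d := fun h => hj ((hK j).2 h)
          simp only [hj', if_false] at hxy
          by_contra h3
          exact hxy (Matrix.one_apply_ne h3)
        · intro j hj x y hxy
          have hj' : dd j = d := (hK j).1 hj
          simp only [hj', if_true] at hxy
          exact RM_row (dd j) (ζ j) (hζ j) k (by omega) x y hxy
      have h3 := h2.mul h1 (Real.exp_pos _).le (Real.exp_pos _).le
      rw [PK_mul] at h3
      have h4 : (fun j => (if dd j = d then RM (dd j) (ζ j) k else 1) *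
          (if dd j = d then HM (dd j) (ζ j) k else 1)) =
          (fun j => if dd j = d then HM (dd j) (ζ j) (k + 1) else 1) := by
        funext j
        by_cases hj : dd j = d
        · rw [if_pos hj, if_pos hj, if_pos hj, RM_mul _ _ (hζ j) k (by omega)]
        · rw [if_neg hj, if_neg hj, if_neg hj, Matrix.mul_one]
      rw [h4] at h3
      refine h3.mono ?_ ?_
      · push_cast
        linarith
      · rw [← Real.exp_add]
        apply le_of_eq
        congr 1
        push_cast
        ring
  have h1 := step d le_rfl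
  have h2 : (fun j => if dd j = d then HM (dd j) (ζ j) d else 1) =
      (fun j => if dd j = d then FD (dd j) (ζ j) else 1) := by
    funext j
    by_cases hj : dd j = d
    · rw [if_pos hj, if_pos hj]
      conv_lhs => rw [← hj]
      rw [HM_top]
    · rw [if_neg hj, if_neg hj]
  rw [h2] at h1
  refine h1.mono ?_ ?_
  · rw [hρ]
    apply le_of_eq
    ring
  · rw [hσ]
    apply le_of_eq
    congr 1
    field_simp

/-- a block of few coordinates is sparse anyway -/
theorem dense_block (dd : J → ℕ) [∀ j, NeZero (dd j)] (X : ∀ j, Matrix (ZMod (dd j)) (ZMod (dd j)) F)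
    (K : Finset J) (d : ℕ) (hK : ∀ j, j ∈ K ↔ dd j = d) :
    Dec (PK (fun j => if dd j = d then X j else 1)) 0 ((d : ℝ) ^ K.card) := by
  apply Dec.of_sparse
  have key : ∀ x y : (∀ j, ZMod (dd j)), PK (fun j => if dd j = d then X j else 1) x y ≠ 0 →
      ∀ j, j ∉ K → x j = y j := by
    intro x y hxy j hj
    unfold PK at hxy
    rw [Matrix.of_apply] at hxy
    have h1 := Finset.prod_ne_zero_iff.1 hxy j (mem_univ _)
    have hj' : ¬ dd j = d := fun h => hj ((hK j).2 h)
    simp only [hj', if_false] at h1
    by_contra h3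
    exact h1 (Matrix.one_apply_ne h3)
  have hcard : ∀ x : (∀ j, ZMod (dd j)),
      (Fintype.piFinset (fun j => if j ∈ K then (univ : Finset (ZMod (dd j))) else {x j})).card =
        d ^ K.card := by
    intro x
    rw [Fintype.card_piFinset]
    have h1 : ∀ j, (if j ∈ K then (univ : Finset (ZMod (dd j))) else {x j}).card =
        if j ∈ K then d else 1 := by
      intro j
      by_cases hj : j ∈ K
      · rw [if_pos hj, if_pos hj, card_univ, ZMod.card]
        exact (hK j).1 hj
      · rw [if_neg hj, if_neg hj, card_singleton]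
    simp_rw [h1]
    rw [Finset.prod_ite_mem, Finset.univ_inter, Finset.prod_const]
  constructor
  · intro x
    rw [← Nat.cast_pow, Nat.cast_le, ← hcard x]
    apply card_le_card
    intro y hy
    rw [mem_filter] at hy
    rw [Fintype.mem_piFinset]
    intro j
    by_cases hj : j ∈ K
    · rw [if_pos hj]; exact mem_univ _
    · rw [if_neg hj, mem_singleton]
      exact (key x y hy.2 j hj).symm
  · intro y
    rw [← Nat.cast_pow, Nat.cast_le, ← hcard y]
    apply card_le_card
    intro x hx
    rw [mem_filter] at hx
    rw [Fintype.mem_piFinset]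
    intro j
    by_cases hj : j ∈ K
    · rw [if_pos hj]; exact mem_univ _
    · rw [if_neg hj, mem_singleton]
      exact key x y hx.2 j hj

end prod

end Pool.Agent.V7H10.DR
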